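import Mathlib

/-! The final linear algebra. -/

namespace Pool.Agent.H97.Bin

variable {R : Type} [CommRing R]

/-- Second order expansion. -/
def jet (P F D r Q S : R) (s A B : ℤ) : R :=
  2 * F + 2 * P * s * D + P ^ 2 * ((s : R) ^ 2 * r - A * Q + B * S)

theorem rel1 (P w F D r Q S : R) (hP : P ^ 3 = 0)
    (h : jet P F D r Q S (-3) 27 9 - (1 + P * w) * jet P F D r Q S 3 27 9 = 0) :
    2 * (P * (w * F + 6 * D + 3 * P * w * D)) = 0 := by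
  unfold jet at h
  push_cast at h
  linear_combination -h + ((-9) * w * S + 27 * w * Q + (-9) * w * r) * hP

theorem rel2 (P w F D r Q S : R) (hP : P ^ 3 = 0)
    (h : jet P F D r Q S (-5) 75 25 - 2 * (1 + P * w) * jet P F D r Q S 1 67 17 +
      (1 + P * w) ^ 2 * jet P F D r Q S 7 83 33 = 0) :
    2 * (P ^ 2 * (w ^ 2 * F + 12 * w * D + 36 * r - 12 * Q + 12 * S)) = 0 := by
  unfold jet at h
  push_cast at h
  linear_combination h - (32 * w * S + (-32) * w * Q + 96 * w * r + 14 * w ^ 2 * D +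
    33 * P * w ^ 2 * S + (-83) * P * w ^ 2 * Q + 49 * P * w ^ 2 * r) * hP

theorem alg_final (P t w F D r Q S : R) (hP : P ^ 3 = 0)
    (h1 : P * (w * F + 6 * D + 3 * P * w * D) = 0)
    (h2 : P ^ 2 * (w ^ 2 * F + 12 * w * D + 36 * r - 12 * Q + 12 * S) = 0) :
    1125 * (1 + P * t) * jet P F D r Q S (-2) 2 4 -
      50 * (1 + P * t) ^ 3 * (16 * jet P F D r Q S (-6) 18 36 -
        (1 + P * w) * jet P F D r Q S 0 6 24) +
      (1 + P * t) ^ 5 * (256 * jet P F D r Q S (-10) 50 100 -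
        32 * (1 + P * w) * jet P F D r Q S (-4) 22 72 +
        (1 + P * w) ^ 2 * jet P F D r Q S 2 18 68) = 1200 * F := by
  unfold jet
  push_cast
  linear_combination 40 * h1 + 22 * h2 - 20 * P * w * h1 +
    ((-968)*w*S + 368*w*Q + (-504)*w*r + 64*w^2*D + 38520*t*S + (-20520)*t*Q + 43560*t*r +
      1320*t*w*D + 10*t*w^2*F + (-19800)*t^2*D + (-300)*t^2*w*F + 3000*t^3*F + 68*P*w^2*S +
      (-18)*P*w^2*Q + 4*P*w^2*r + (-7240)*P*t*w*S + 2440*P*t*w*Q + (-2520)*P*t*w*r +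
      20*P*t*w^2*D + 150840*P*t^2*S + (-78840)*P*t^2*Q + 164520*P*t^2*r + 2640*P*t^2*w*D +
      20*P*t^2*w^2*F + (-39000)*P*t^3*D + (-500)*P*t^3*w*F + 2250*P*t^4*F + 340*P^2*t*w^2*S +
      (-90)*P^2*t*w^2*Q + 20*P^2*t*w^2*r + (-18080)*P^2*t^2*w*S + 5780*P^2*t^2*w*Q +
      (-5040)*P^2*t^2*w*r + 40*P^2*t^2*w^2*D + 206040*P^2*t^3*S + (-107040)*P^2*t^3*Q +
      222120*P^2*t^3*r + 2640*P^2*t^3*w*D + 20*P^2*t^3*w^2*F + (-24300)*P^2*t^4*D +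
      (-300)*P^2*t^4*w*F + 450*P^2*t^5*F + 680*P^3*t^2*w^2*S + (-180)*P^3*t^2*w^2*Q +
      40*P^3*t^2*w^2*r + (-20480)*P^3*t^3*w*S + 6380*P^3*t^3*w*Q + (-5040)*P^3*t^3*w*r +
      40*P^3*t^3*w^2*D + 116820*P^3*t^4*S + (-60570)*P^3*t^4*Q + 125460*P^3*t^4*r +
      1320*P^3*t^4*w*D + 10*P^3*t^4*w^2*F + (-4860)*P^3*t^5*D + (-60)*P^3*t^5*w*F +
      680*P^4*t^3*w^2*S + (-180)*P^4*t^3*w^2*Q + 40*P^4*t^3*w^2*r + (-10840)*P^4*t^4*w*S +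
      3340*P^4*t^4*w*Q + (-2520)*P^4*t^4*w*r + 20*P^4*t^4*w^2*D + 23364*P^4*t^5*S +
      (-12114)*P^4*t^5*Q + 25092*P^4*t^5*r + 264*P^4*t^5*w*D + 2*P^4*t^5*w^2*F +
      340*P^5*t^4*w^2*S + (-90)*P^5*t^4*w^2*Q + 20*P^5*t^4*w^2*r + (-2168)*P^5*t^5*w*S +
      668*P^5*t^5*w*Q + (-504)*P^5*t^5*w*r + 4*P^5*t^5*w^2*D + 68*P^6*t^5*w^2*S +
      (-18)*P^6*t^5*w^2*Q + 4*P^6*t^5*w^2*r) * hP

end Pool.Agent.H97.Bin
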