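import Mathlib

/-! # Truncated hypergeometric sums modulo `p ^ 3`: definitions -/

namespace Pool.Agent.H97.Bin

open Finset

/-- Numerator factor. -/
def nu (p : ℕ) (a : ℤ × ℤ × ℤ) (r : ℕ) : ZMod (p ^ 3) :=
  (2 * r + 1 + a.1 * p) * (2 * r + 1 + a.2.1 * p) * (2 * r + 1 + a.2.2 * p)

/-- Denominator factor. -/
def de (p : ℕ) (b : ℤ × ℤ × ℤ) (r : ℕ) : ZMod (p ^ 3) :=
  (2 * r + 2 + b.1 * p) * (2 * r + 2 + b.2.1 * p) * (2 * r + 2 + b.2.2 * p)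

/-- Terms of the deformed series. -/
def ff (p : ℕ) (a b : ℤ × ℤ × ℤ) : ℕ → ZMod (p ^ 3)
  | 0 => 1
  | r + 1 => ff p a b r * (nu p a r * (4 * de p b r)⁻¹)

/-- Terms of the series itself. -/
def cc (p : ℕ) (r : ℕ) : ZMod (p ^ 3) := ff p (0, 0, 0) (0, 0, 0) r

def dd (p : ℕ) (r : ℕ) : ZMod (p ^ 3) :=
  ∑ s ∈ range r, ((2 * s + 1 : ZMod (p ^ 3))⁻¹ - (2 * s + 2 : ZMod (p ^ 3))⁻¹)

def h2 (p : ℕ) (r : ℕ) : ZMod (p ^ 3) := ∑ s ∈ range r, ((2 * s + 1 : ZMod (p ^ 3))⁻¹) ^ 2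

def H2 (p : ℕ) (r : ℕ) : ZMod (p ^ 3) := ∑ s ∈ range r, ((2 * s + 2 : ZMod (p ^ 3))⁻¹) ^ 2

/-- The deformed sum over `0 ≤ r ≤ (p - 1) / 2`. -/
def BB (p : ℕ) (a b : ℤ × ℤ × ℤ) : ZMod (p ^ 3) := ∑ r ∈ range ((p - 1) / 2 + 1), ff p a b r

def Phi (p : ℕ) : ZMod (p ^ 3) := ∑ r ∈ range ((p - 1) / 2 + 1), cc p r
def DD (p : ℕ) : ZMod (p ^ 3) := ∑ r ∈ range ((p - 1) / 2 + 1), cc p r * dd p r
def RR (p : ℕ) : ZMod (p ^ 3) := ∑ r ∈ range ((p - 1) / 2 + 1), cc p r * dd p r ^ 2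
def Q4 (p : ℕ) : ZMod (p ^ 3) := ∑ r ∈ range ((p - 1) / 2 + 1), cc p r * h2 p r
def Q5 (p : ℕ) : ZMod (p ^ 3) := ∑ r ∈ range ((p - 1) / 2 + 1), cc p r * H2 p r

def XX (p : ℕ) : ZMod (p ^ 3) := (-4) ^ ((p - 1) / 2) * ((((p - 1) / 2).factorial : ℕ) : ZMod (p ^ 3)) ^ 2

def YY (p : ℕ) : ZMod (p ^ 3) := 2 ^ (p - 1) * (((p - 1).factorial : ℕ) : ZMod (p ^ 3))

def vv (p : ℕ) : ZMod (p ^ 3) := XX p ^ 3 * (4 ^ (p - 1) * YY p ^ 3)⁻¹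

/-- Terms on the other side, with parameter `i`. -/
def ps (p : ℕ) (i : ℤ) : ℕ → ZMod (p ^ 3)
  | 0 => 1
  | k + 1 => ps p i k * (((6 * k + 1 - i * p) * (6 * k + 3 - i * p) * (6 * k + 5 - i * p)) *
      (3375 * ((k + 1) * (k + 1) * (2 * k + 2 - i * p)) : ZMod (p ^ 3))⁻¹)

theorem P3 (p : ℕ) : (p : ZMod (p ^ 3)) ^ 3 = 0 := by
  have h : ((p ^ 3 : ℕ) : ZMod (p ^ 3)) = 0 := ZMod.natCast_self _
  rw [Nat.cast_pow] at h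
  exact h

/-- Integers prime to `p` are units. -/
theorem unit_int (p : ℕ) (hp : p.Prime) (z : ℤ) (h : ¬ (p : ℤ) ∣ z) : IsUnit (z : ZMod (p ^ 3)) := by
  rw [ZMod.coe_int_isUnit_iff_isCoprime]
  have h1 : IsCoprime (p : ℤ) z := (Nat.prime_iff_prime_int.mp hp).coprime_iff_not_dvd.mpr h
  push_cast
  exact h1.pow_left

theorem mul_inv_int (p : ℕ) (hp : p.Prime) (z : ℤ) (h : ¬ (p : ℤ) ∣ z) :
    (z : ZMod (p ^ 3)) * (z : ZMod (p ^ 3))⁻¹ = 1 :=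
  ZMod.mul_inv_of_unit _ (unit_int p hp z h)

/-- Adding a multiple of `p` does not change divisibility. -/
theorem not_dvd_add (p : ℕ) (z c : ℤ) (h : ¬ (p : ℤ) ∣ z) : ¬ (p : ℤ) ∣ z + c * p := by
  intro h2
  apply h
  have h3 : (p : ℤ) ∣ c * p := Dvd.intro_left c rfl
  exact (Int.dvd_add_left h3).mp h2

end Pool.Agent.H97.Bin
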