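import Pool.Agent.H97.Bin.Wol

namespace Pool.Agent.H97.Bin

open Finset

/-- `p` does not divide `2 r + 2` for `r + 1 < p`. -/
theorem blk_not_dvd_even (p : ℕ) (hp : p.Prime) (h7 : 7 ≤ p) (r : ℕ) (hr : r + 1 < p) :
    ¬ (p : ℤ) ∣ 2 * r + 2 := by
  intro h
  have h1 : (p : ℤ) ∣ 2 * (r + 1 : ℤ) := by
    have : (2 * r + 2 : ℤ) = 2 * (r + 1 : ℤ) := by ring
    rwa [this] at h
  have hpp : Prime (p : ℤ) := Nat.prime_iff_prime_int.mp hp
  rcases hpp.dvd_or_dvd h1 with h2 | h2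
  · have := Int.le_of_dvd (by norm_num) h2
    omega
  · have := Int.le_of_dvd (by omega) h2
    omega

theorem blk_unit_de (p : ℕ) (hp : p.Prime) (h7 : 7 ≤ p) (b : ℤ × ℤ × ℤ) (r : ℕ)
    (hr : r + 1 < p) : IsUnit (4 * de p b r) := by
  have h4 : IsUnit ((4 : ℤ) : ZMod (p ^ 3)) := by
    apply unit_int p hp
    intro h
    have := Int.le_of_dvd (by norm_num) h
    omega
  have key : ∀ c : ℤ, IsUnit ((2 * r + 2 + c * p : ZMod (p ^ 3))) := by
    intro c
    have := unit_int p hp (2 * r + 2 + c * p) (not_dvd_add p _ c (blk_not_dvd_even p hp h7 r hr))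
    push_cast at this
    exact this
  unfold de
  push_cast at h4
  exact h4.mul (((key b.1).mul (key b.2.1)).mul (key b.2.2))

/-- Within a block. -/
theorem block_term (p : ℕ) (hp : p.Prime) (h7 : 7 ≤ p) (U : ℕ → ℤ) (a b : ℤ × ℤ × ℤ)
    (hU : ∀ k : ℕ, U (k + 1) * (4 * ((2 * k + 2 + b.1 * p) * (2 * k + 2 + b.2.1 * p) *
        (2 * k + 2 + b.2.2 * p))) =
      U k * ((2 * k + 1 + a.1 * p) * (2 * k + 1 + a.2.1 * p) * (2 * k + 1 + a.2.2 * p)))
    (j r : ℕ) (hr : r < p) :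
    (U (j * p + r) : ZMod (p ^ 3)) = U (j * p) *
      ff p (a.1 + 2 * j, a.2.1 + 2 * j, a.2.2 + 2 * j) (b.1 + 2 * j, b.2.1 + 2 * j, b.2.2 + 2 * j) r := by
  induction r with
  | zero => simp [ff]
  | succ r ih =>
    have ih' := ih (by omega)
    have hu := blk_unit_de p hp h7 (b.1 + 2 * j, b.2.1 + 2 * j, b.2.2 + 2 * j) r (by omega)
    have h1 := congrArg (Int.cast : ℤ → ZMod (p ^ 3)) (hU (j * p + r))
    have h2 : (U (j * p + (r + 1)) : ZMod (p ^ 3)) *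
        (4 * de p (b.1 + 2 * j, b.2.1 + 2 * j, b.2.2 + 2 * j) r) =
        U (j * p + r) * nu p (a.1 + 2 * j, a.2.1 + 2 * j, a.2.2 + 2 * j) r := by
      unfold de nu
      push_cast at h1 ⊢
      rw [← add_assoc]
      linear_combination h1
    have h3 : (4 * de p (b.1 + 2 * j, b.2.1 + 2 * j, b.2.2 + 2 * j) r) *
        (4 * de p (b.1 + 2 * j, b.2.1 + 2 * j, b.2.2 + 2 * j) r)⁻¹ = 1 :=
      ZMod.mul_inv_of_unit _ hu
    rw [ih'] at h2
    simp only [ff]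
    linear_combination (4 * de p (b.1 + 2 * j, b.2.1 + 2 * j, b.2.2 + 2 * j) r)⁻¹ * h2 -
      (U (j * p + (r + 1)) : ZMod (p ^ 3)) * h3

theorem ff_zero (p : ℕ) (hp : p.Prime) (h7 : 7 ≤ p) (a b : ℤ × ℤ × ℤ) (r : ℕ)
    (hr : (p - 1) / 2 < r) : ff p a b r = 0 := by
  have hodd : p = 2 * ((p - 1) / 2) + 1 := by
    have := hp.eq_two_or_odd
    omega
  have hodd' : (2 * (((p - 1) / 2 : ℕ) : ZMod (p ^ 3)) + 1) = (p : ZMod (p ^ 3)) := by
    have h := congrArg (Nat.cast : ℕ → ZMod (p ^ 3)) hodd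
    push_cast at h
    exact h.symm
  induction r, hr using Nat.le_induction with
  | base =>
    simp only [ff, nu]
    have h0 : (2 * (((p - 1) / 2 : ℕ) : ZMod (p ^ 3)) + 1 + a.1 * p) *
        (2 * (((p - 1) / 2 : ℕ) : ZMod (p ^ 3)) + 1 + a.2.1 * p) *
        (2 * (((p - 1) / 2 : ℕ) : ZMod (p ^ 3)) + 1 + a.2.2 * p) = 0 := by
      rw [hodd']
      linear_combination (1 + (a.1 : ZMod (p ^ 3))) * (1 + a.2.1) * (1 + a.2.2) * P3 p
    rw [h0]
    simp
  | succ r hr ih =>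
    simp only [ff]
    rw [ih]
    simp

/-- Sum over blocks. -/
theorem block_sum (p : ℕ) (hp : p.Prime) (h7 : 7 ≤ p) (U : ℕ → ℤ) (a b : ℤ × ℤ × ℤ)
    (hU : ∀ k : ℕ, U (k + 1) * (4 * ((2 * k + 2 + b.1 * p) * (2 * k + 2 + b.2.1 * p) *
        (2 * k + 2 + b.2.2 * p))) =
      U k * ((2 * k + 1 + a.1 * p) * (2 * k + 1 + a.2.1 * p) * (2 * k + 1 + a.2.2 * p)))
    (m : ℕ) :
    ∑ k ∈ range ((m + 1) * p), (U k : ZMod (p ^ 3)) = ∑ j ∈ range (m + 1), (U (j * p) : ZMod (p ^ 3)) *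
      BB p (a.1 + 2 * j, a.2.1 + 2 * j, a.2.2 + 2 * j) (b.1 + 2 * j, b.2.1 + 2 * j, b.2.2 + 2 * j) := by
  have hblock : ∀ j : ℕ, ∑ r ∈ range p, (U (j * p + r) : ZMod (p ^ 3)) = (U (j * p) : ZMod (p ^ 3)) *
      BB p (a.1 + 2 * j, a.2.1 + 2 * j, a.2.2 + 2 * j) (b.1 + 2 * j, b.2.1 + 2 * j, b.2.2 + 2 * j) := by
    intro j
    have h1 : ∑ r ∈ range p, (U (j * p + r) : ZMod (p ^ 3)) =
        ∑ r ∈ range p, (U (j * p) : ZMod (p ^ 3)) *
          ff p (a.1 + 2 * j, a.2.1 + 2 * j, a.2.2 + 2 * j)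
            (b.1 + 2 * j, b.2.1 + 2 * j, b.2.2 + 2 * j) r := by
      apply sum_congr rfl
      intro r hr
      exact block_term p hp h7 U a b hU j r (mem_range.mp hr)
    rw [h1, ← mul_sum]
    congr 1
    unfold BB
    symm
    apply sum_subset
    · intro r hr
      rw [mem_range] at *
      omega
    · intro r _ hr
      rw [mem_range] at hr
      exact ff_zero p hp h7 _ _ r (by omega)
  induction m with
  | zero =>
    rw [zero_add, one_mul, sum_range_one]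
    have := hblock 0
    simpa using this
  | succ m ih =>
    have h1 : (m + 1 + 1) * p = (m + 1) * p + p := by ring
    rw [h1, sum_range_add, ih, sum_range_succ _ (m + 1)]
    congr 1
    exact hblock (m + 1)

theorem blk_prod_sym (N : ℕ) (C : ℤ) :
    ∏ t ∈ range (2 * N + 1), (C + 2 * ((t : ℤ) - N)) =
      C * ∏ l ∈ range N, (C ^ 2 - (2 * ((l : ℤ) + 1)) ^ 2) := by
  induction N with
  | zero => simp
  | succ N ih =>
    have h1 : 2 * (N + 1) + 1 = (2 * N + 1) + 1 + 1 := by ring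
    rw [h1, prod_range_succ, prod_range_succ', prod_range_succ _ N]
    have h2 : ∏ k ∈ range (2 * N + 1), (C + 2 * (((k + 1 : ℕ) : ℤ) - ((N + 1 : ℕ) : ℤ))) =
        ∏ t ∈ range (2 * N + 1), (C + 2 * ((t : ℤ) - N)) := by
      apply prod_congr rfl
      intro t _
      push_cast
      ring
    rw [h2, ih]
    push_cast
    ring

theorem blk_prod_num (p : ℕ) (hp : p.Prime) (h7 : 7 ≤ p) (c : ℤ) :
    ∏ t ∈ range p, (2 * (t : ℤ) + 1 + c * p) =
      ((1 + c) * p) * ∏ l ∈ range ((p - 1) / 2), (((1 + c) * p) ^ 2 - (2 * ((l : ℤ) + 1)) ^ 2) := by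
  have hodd : p = 2 * ((p - 1) / 2) + 1 := by
    have := hp.eq_two_or_odd
    omega
  rw [← blk_prod_sym ((p - 1) / 2) ((1 + c) * p), ← hodd]
  apply prod_congr rfl
  intro t _
  have h : (p : ℤ) = 2 * (((p - 1) / 2 : ℕ) : ℤ) + 1 := by exact_mod_cast hodd
  linear_combination -h

theorem blk_prod_den (p : ℕ) (h7 : 7 ≤ p) (c : ℤ) :
    ∏ t ∈ range p, (2 * (t : ℤ) + 2 + c * p) =
      ((2 + c) * p) * ∏ m ∈ range (p - 1), (2 * ((m : ℤ) + 1) + c * p) := by
  obtain ⟨q, rfl⟩ : ∃ q, p = q + 1 := ⟨p - 1, by omega⟩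
  rw [prod_range_succ, Nat.add_sub_cancel]
  have h : ∏ x ∈ range q, (2 * (x : ℤ) + 2 + c * ((q + 1 : ℕ) : ℤ)) =
      ∏ m ∈ range q, (2 * ((m : ℤ) + 1) + c * ((q + 1 : ℕ) : ℤ)) := by
    apply prod_congr rfl
    intro t _
    ring
  rw [h]
  push_cast
  ring

/-- From one block to the next. -/
theorem block_step (p : ℕ) (hp : p.Prime) (h7 : 7 ≤ p) (U : ℕ → ℤ) (a b : ℤ × ℤ × ℤ)
    (hU : ∀ k : ℕ, U (k + 1) * (4 * ((2 * k + 2 + b.1 * p) * (2 * k + 2 + b.2.1 * p) *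
        (2 * k + 2 + b.2.2 * p))) =
      U k * ((2 * k + 1 + a.1 * p) * (2 * k + 1 + a.2.1 * p) * (2 * k + 1 + a.2.2 * p)))
    (j : ℕ) :
    (U ((j + 1) * p) : ZMod (p ^ 3)) * (4 * ((2 * j + 2 + b.1) * (2 * j + 2 + b.2.1) *
        (2 * j + 2 + b.2.2))) =
      U (j * p) * (vv p * ((2 * j + 1 + a.1) * (2 * j + 1 + a.2.1) * (2 * j + 1 + a.2.2))) := by
  -- telescoping in the integers
  have htel : ∀ s : ℕ, U (j * p + s) * ∏ t ∈ range s,
        (4 * ((2 * (t : ℤ) + 2 + (2 * j + b.1) * p) * (2 * t + 2 + (2 * j + b.2.1) * p) *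
          (2 * t + 2 + (2 * j + b.2.2) * p))) =
      U (j * p) * ∏ t ∈ range s,
        ((2 * (t : ℤ) + 1 + (2 * j + a.1) * p) * (2 * t + 1 + (2 * j + a.2.1) * p) *
          (2 * t + 1 + (2 * j + a.2.2) * p)) := by
    intro s
    induction s with
    | zero => simp
    | succ s ih =>
      rw [prod_range_succ, prod_range_succ]
      have h1 := hU (j * p + s)
      push_cast at h1
      have h2 : U (j * p + (s + 1)) *
        (4 * ((2 * (s : ℤ) + 2 + (2 * j + b.1) * p) * (2 * s + 2 + (2 * j + b.2.1) * p) *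
          (2 * s + 2 + (2 * j + b.2.2) * p))) = U (j * p + s) *
        ((2 * (s : ℤ) + 1 + (2 * j + a.1) * p) * (2 * s + 1 + (2 * j + a.2.1) * p) *
          (2 * s + 1 + (2 * j + a.2.2) * p)) := by
        rw [← add_assoc]
        linear_combination h1
      linear_combination (∏ t ∈ range s,
        (4 * ((2 * (t : ℤ) + 2 + (2 * j + b.1) * p) * (2 * t + 2 + (2 * j + b.2.1) * p) *
          (2 * t + 2 + (2 * j + b.2.2) * p)))) * h2 +
        ((2 * (s : ℤ) + 1 + (2 * j + a.1) * p) * (2 * s + 1 + (2 * j + a.2.1) * p) *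
          (2 * s + 1 + (2 * j + a.2.2) * p)) * ih
  have h1 := htel p
  rw [prod_mul_distrib, prod_mul_distrib, prod_mul_distrib, prod_mul_distrib, prod_mul_distrib,
    prod_const, card_range,
    blk_prod_den p h7, blk_prod_den p h7, blk_prod_den p h7, blk_prod_num p hp h7, blk_prod_num p hp h7,
    blk_prod_num p hp h7] at h1
  set E1 : ℤ := ∏ m ∈ range (p - 1), (2 * ((m : ℤ) + 1) + (2 * j + b.1) * p) with hE1
  set E2 : ℤ := ∏ m ∈ range (p - 1), (2 * ((m : ℤ) + 1) + (2 * j + b.2.1) * p) with hE2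
  set E3 : ℤ := ∏ m ∈ range (p - 1), (2 * ((m : ℤ) + 1) + (2 * j + b.2.2) * p) with hE3
  set O1 : ℤ := ∏ l ∈ range ((p - 1) / 2),
    (((1 + (2 * (j : ℤ) + a.1)) * p) ^ 2 - (2 * ((l : ℤ) + 1)) ^ 2) with hO1
  set O2 : ℤ := ∏ l ∈ range ((p - 1) / 2),
    (((1 + (2 * (j : ℤ) + a.2.1)) * p) ^ 2 - (2 * ((l : ℤ) + 1)) ^ 2) with hO2
  set O3 : ℤ := ∏ l ∈ range ((p - 1) / 2),
    (((1 + (2 * (j : ℤ) + a.2.2)) * p) ^ 2 - (2 * ((l : ℤ) + 1)) ^ 2) with hO3
  have hp0 : ((p : ℤ)) ^ 3 ≠ 0 := by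
    have : (p : ℤ) ≠ 0 := by exact_mod_cast hp.ne_zero
    exact pow_ne_zero 3 this
  have h2 : U (j * p + p) * (4 ^ p * ((2 * j + 2 + b.1) * (2 * j + 2 + b.2.1) *
        (2 * j + 2 + b.2.2)) * (E1 * E2 * E3)) =
      U (j * p) * (((2 * j + 1 + a.1) * (2 * j + 1 + a.2.1) * (2 * j + 1 + a.2.2)) *
        (O1 * O2 * O3)) := by
    apply mul_left_cancel₀ hp0
    linear_combination h1
  have h3 := congrArg (Int.cast : ℤ → ZMod (p ^ 3)) h2
  have hcE : ∀ c : ℤ, ((∏ m ∈ range (p - 1), (2 * ((m : ℤ) + 1) + (2 * j + c) * p) : ℤ) :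
      ZMod (p ^ 3)) = YY p := by
    intro c
    have := prod_even p hp h7 ((2 * j + c : ℤ) : ZMod (p ^ 3))
    rw [← this]
    push_cast
    rfl
  have hcO : ∀ c : ℤ, ((∏ l ∈ range ((p - 1) / 2),
    (((1 + (2 * (j : ℤ) + c)) * p) ^ 2 - (2 * ((l : ℤ) + 1)) ^ 2) : ℤ) :
      ZMod (p ^ 3)) = XX p := by
    intro c
    have := prod_odd p hp h7 ((1 + (2 * (j : ℤ) + c) : ℤ) : ZMod (p ^ 3))
    rw [← this]
    push_cast
    rfl
  have h4 : (U (j * p + p) : ZMod (p ^ 3)) * (4 ^ p * ((2 * j + 2 + b.1) * (2 * j + 2 + b.2.1) *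
        (2 * j + 2 + b.2.2)) * (YY p * YY p * YY p)) =
      U (j * p) * (((2 * j + 1 + a.1) * (2 * j + 1 + a.2.1) * (2 * j + 1 + a.2.2)) *
        (XX p * XX p * XX p)) := by
    have e1 := hcE b.1
    have e2 := hcE b.2.1
    have e3 := hcE b.2.2
    have o1 := hcO a.1
    have o2 := hcO a.2.1
    have o3 := hcO a.2.2
    rw [← hE1] at e1
    rw [← hE2] at e2
    rw [← hE3] at e3
    rw [← hO1] at o1
    rw [← hO2] at o2
    rw [← hO3] at o3
    push_cast [-Int.cast_prod] at h3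
    rw [e1, e2, e3, o1, o2, o3] at h3
    exact h3
  -- the factor to be cancelled is a unit
  have hu4 : IsUnit ((4 : ZMod (p ^ 3))) := by
    have : IsUnit ((4 : ℤ) : ZMod (p ^ 3)) := by
      apply unit_int p hp
      intro h
      have := Int.le_of_dvd (by norm_num) h
      omega
    push_cast at this
    exact this
  have hu2 : IsUnit ((2 : ZMod (p ^ 3))) := by
    have : IsUnit ((2 : ℤ) : ZMod (p ^ 3)) := by
      apply unit_int p hp
      intro h
      have := Int.le_of_dvd (by norm_num) h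
      omega
    push_cast at this
    exact this
  have huf : IsUnit (((p - 1).factorial : ℕ) : ZMod (p ^ 3)) := by
    have : IsUnit ((((p - 1).factorial : ℕ) : ℤ) : ZMod (p ^ 3)) := by
      apply unit_int p hp
      intro h
      have h' : p ∣ (p - 1).factorial := by exact_mod_cast h
      have := (hp.dvd_factorial).mp h'
      have := hp.pos
      omega
    push_cast at this
    exact this
  have huY : IsUnit (YY p) := (hu2.pow _).mul huf
  have hu : IsUnit ((4 : ZMod (p ^ 3)) ^ (p - 1) * YY p ^ 3) := (hu4.pow _).mul (huY.pow _)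
  apply hu.mul_left_cancel
  have hv := vv_unit p hp h7
  have hpow : (4 : ZMod (p ^ 3)) ^ p = 4 ^ (p - 1) * 4 := by
    rw [← pow_succ]
    congr 1
    have := hp.pos
    omega
  have hidx : (j + 1) * p = j * p + p := by ring
  rw [hidx]
  rw [hpow] at h4
  linear_combination h4 - (U (j * p) : ZMod (p ^ 3)) *
    ((2 * j + 1 + a.1) * (2 * j + 1 + a.2.1) * (2 * j + 1 + a.2.2)) * hv

end Pool.Agent.H97.Bin
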