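import Pool.Agent.H97.Bin.Main

/-! The final statement. -/

namespace Pool.Agent.H97.Bin

open Finset

theorem lift_zero (p : ℕ) (hp : p.Prime) (x : ZMod (p ^ 3))
    (h : ZMod.castHom (dvd_pow_self p (by norm_num : (3 : ℕ) ≠ 0)) (ZMod p) x = 0) :
    ∃ y : ZMod (p ^ 3), x = (p : ZMod (p ^ 3)) * y := by
  have : NeZero (p ^ 3) := ⟨pow_ne_zero 3 hp.ne_zero⟩
  have h1 : ((x.val : ℕ) : ZMod (p ^ 3)) = x := ZMod.natCast_zmod_val x
  rw [← h1, map_natCast, ZMod.natCast_eq_zero_iff] at h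
  obtain ⟨c, hc⟩ := h
  refine ⟨(c : ZMod (p ^ 3)), ?_⟩
  rw [← h1, hc]
  push_cast
  rfl

/-- `-3` is a square modulo a prime `p ≡ 1 (mod 3)`. -/
theorem legendre_neg_three (p : ℕ) [hp : Fact p.Prime] (h7 : 7 ≤ p) (h3 : p % 3 = 1) :
    legendreSym p (-3) = 1 := by
  have hcard : Fintype.card (ZMod p)ˣ = p - 1 := ZMod.card_units p
  have hdvd : 3 ∣ Fintype.card (ZMod p)ˣ := by rw [hcard]; omega
  obtain ⟨z, hz⟩ := exists_prime_orderOf_dvd_card 3 hdvd
  have hz3 : (z : ZMod p) ^ 3 = 1 := by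
    have := pow_orderOf_eq_one z
    rw [hz] at this
    rw [← Units.val_pow_eq_pow_val, this, Units.val_one]
  have hz1 : (z : ZMod p) ≠ 1 := by
    intro h
    have : z = 1 := Units.ext h
    rw [this, orderOf_one] at hz
    norm_num at hz
  have hq : (z : ZMod p) ^ 2 + z + 1 = 0 := by
    have h : ((z : ZMod p) - 1) * ((z : ZMod p) ^ 2 + z + 1) = 0 := by
      linear_combination hz3
    rcases mul_eq_zero.mp h with h | h
    · exact absurd (sub_eq_zero.mp h) hz1
    · exact h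
  have hne : (((-3 : ℤ)) : ZMod p) ≠ 0 := by
    intro h
    rw [ZMod.intCast_zmod_eq_zero_iff_dvd] at h
    have := Int.le_of_dvd (by norm_num) ((Int.dvd_neg).mp (by simpa using h) : (p : ℤ) ∣ 3)
    omega
  rw [legendreSym.eq_one_iff p hne]
  refine ⟨2 * (z : ZMod p) + 1, ?_⟩
  push_cast
  linear_combination -4 * hq

/-- The power of `16 / 15`. -/
theorem kappa (p : ℕ) [hp : Fact p.Prime] (h7 : 7 ≤ p) (h3 : p % 3 = 1) :
    ∃ θ : ZMod (p ^ 3), ((legendreSym p (-5) : ℤ) : ZMod (p ^ 3)) ^ 2 = 1 ∧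
      ((legendreSym p (-5) : ℤ) : ZMod (p ^ 3)) * (1 + (p : ZMod (p ^ 3)) * θ) *
        15 ^ ((p - 1) / 2) = 16 ^ ((p - 1) / 2) := by
  have hodd : p / 2 = (p - 1) / 2 := by
    rcases hp.out.eq_two_or_odd' with h2 | ⟨N, hN⟩ <;> omega
  have hne5 : (((-5 : ℤ)) : ZMod p) ≠ 0 := by
    intro h
    rw [ZMod.intCast_zmod_eq_zero_iff_dvd] at h
    have := Int.le_of_dvd (by norm_num) ((Int.dvd_neg).mp (by simpa using h) : (p : ℤ) ∣ 5)
    omega
  have hsq : legendreSym p (-5) ^ 2 = 1 := legendreSym.sq_one p hne5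
  have hsqR : ((legendreSym p (-5) : ℤ) : ZMod (p ^ 3)) ^ 2 = 1 := by
    exact_mod_cast congrArg (fun z : ℤ => (z : ZMod (p ^ 3))) hsq
  -- image modulo p
  set φ := ZMod.castHom (dvd_pow_self p (by norm_num : (3 : ℕ) ≠ 0)) (ZMod p) with hφ
  have h15 : legendreSym p 15 = legendreSym p (-5) := by
    have : (15 : ℤ) = (-5) * (-3) := by norm_num
    rw [this, legendreSym.mul, legendre_neg_three p h7 h3, mul_one]
  have hpow15 : ((15 : ZMod p)) ^ ((p - 1) / 2) = ((legendreSym p (-5) : ℤ) : ZMod p) := by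
    have := legendreSym.eq_pow p 15
    rw [hodd, h15] at this
    push_cast at this
    exact this.symm
  have hpow16 : ((16 : ZMod p)) ^ ((p - 1) / 2) = 1 := by
    have h4 : (4 : ZMod p) ≠ 0 := by
      intro h
      have h' : ((4 : ℕ) : ZMod p) = 0 := by exact_mod_cast h
      rw [ZMod.natCast_eq_zero_iff] at h'
      have := Nat.le_of_dvd (by norm_num) h'
      omega
    have : (16 : ZMod p) = 4 ^ 2 := by norm_num
    rw [this, ← pow_mul]
    have h5 : 2 * ((p - 1) / 2) = p - 1 := by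
      rcases hp.out.eq_two_or_odd' with h2 | ⟨N, hN⟩ <;> omega
    rw [h5]
    exact ZMod.pow_card_sub_one_eq_one h4
  have hu : IsUnit ((15 : ZMod (p ^ 3)) ^ ((p - 1) / 2)) := (unit15 p hp.out h7).pow _
  obtain ⟨c, hc⟩ := hu.exists_right_inv
  -- x = 16^N / 15^N - ε
  have hx : φ (((legendreSym p (-5) : ℤ) : ZMod (p ^ 3)) * (16 ^ ((p - 1) / 2) * c) - 1) = 0 := by
    have h1 : φ ((15 : ZMod (p ^ 3)) ^ ((p - 1) / 2)) * φ c = 1 := by
      rw [← map_mul, hc, map_one]
    rw [map_pow, map_ofNat, hpow15] at h1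
    rw [map_sub, map_mul, map_mul, map_pow, map_ofNat, hpow16, map_one, map_intCast, one_mul, h1,
      sub_self]
  obtain ⟨y, hy⟩ := lift_zero p hp.out _ hx
  refine ⟨y, hsqR, ?_⟩
  rw [← hy]
  linear_combination (16 ^ ((p - 1) / 2) * c * 15 ^ ((p - 1) / 2)) * hsqR +
    16 ^ ((p - 1) / 2) * hc

/-- The congruence in the ring. -/
theorem ring_form (p : ℕ) [hp : Fact p.Prime] (h7 : 7 ≤ p) (h3 : p % 3 = 1) :
    Phi p = ((legendreSym p (-5) : ℤ) : ZMod (p ^ 3)) * Ps p 0 := by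
  obtain ⟨θ, h1, h2⟩ := kappa p h7 h3
  have h := Ps_eq p hp.out h7 h3 _ θ h1 h2
  rw [h]
  linear_combination -(Phi p) * h1

theorem main (p : ℕ) [hp : Fact p.Prime] (h3 : p % 3 = 1) :
    ∃ a b : ℤ, ¬ (p : ℤ) ∣ b ∧
      ((∑ k ∈ range ((p - 1) / 2 + 1), (((2 * k).choose k : ℕ) : ℚ) ^ 3 / 256 ^ k) -
        (legendreSym p (-5) : ℚ) * ∑ k ∈ range p,
          (((2 * k).choose k * (3 * k).choose k * (6 * k).choose (3 * k) : ℕ) : ℚ) / 54000 ^ k) * b =
        (p : ℚ) ^ 3 * a := by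
  have h7 : 7 ≤ p := by
    have := hp.out.two_le
    by_contra hlt
    have : p = 4 := by omega
    have h4 := hp.out
    rw [this] at h4
    norm_num at h4
  set N := (p - 1) / 2 with hN
  set e := legendreSym p (-5) with he
  set X : ℤ := (∑ k ∈ range (N + 1), (((2 * k).choose k : ℕ) : ℤ) ^ 3 * 256 ^ (N - k)) *
      54000 ^ (p - 1) - e * (∑ k ∈ range p,
        (((2 * k).choose k * (3 * k).choose k * (6 * k).choose (3 * k) : ℕ) : ℤ) *
          54000 ^ (p - 1 - k)) * 256 ^ N with hX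
  have hXR : (X : ZMod (p ^ 3)) = 0 := by
    have e1 : (∑ k ∈ range (N + 1), ((((2 * k).choose k : ℕ)) : ZMod (p ^ 3)) ^ 3 * 256 ^ (N - k)) =
        256 ^ N * Phi p := by
      unfold Phi
      rw [mul_sum]
      refine sum_congr rfl fun k hk => ?_
      have hk' : k ≤ N := by
        have := mem_range.mp hk
        omega
      rw [← cc_eq p hp.out h7 k hk']
      have : (256 : ZMod (p ^ 3)) ^ N = 256 ^ k * 256 ^ (N - k) := by
        rw [← pow_add]
        congr 1
        omega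
      rw [this]
      ring
    have e2 : (∑ k ∈ range p,
        (((2 * k).choose k * (3 * k).choose k * (6 * k).choose (3 * k) : ℕ) : ZMod (p ^ 3)) *
          54000 ^ (p - 1 - k)) = 54000 ^ (p - 1) * Ps p 0 := by
      unfold Ps
      rw [mul_sum]
      refine sum_congr rfl fun k hk => ?_
      have hk' := mem_range.mp hk
      rw [← ps_zero_eq p hp.out h7 k hk']
      have : (54000 : ZMod (p ^ 3)) ^ (p - 1) = 54000 ^ k * 54000 ^ (p - 1 - k) := by
        rw [← pow_add]
        congr 1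
        omega
      rw [this]
      ring
    rw [hX]
    push_cast at e1 e2 ⊢
    rw [e1, e2, ring_form p h7 h3]
    ring
  obtain ⟨a, ha⟩ := (ZMod.intCast_zmod_eq_zero_iff_dvd X (p ^ 3)).mp hXR
  refine ⟨a, 256 ^ N * 54000 ^ (p - 1), ?_, ?_⟩
  · intro h
    have h1 : p ∣ 256 ^ N * 54000 ^ (p - 1) := by exact_mod_cast h
    have h2 : p ∣ (2 * 3 * 5) ^ (8 * N + 4 * (p - 1)) := by
      have h5 : 256 ^ N * 54000 ^ (p - 1) ∣ (2 * 3 * 5) ^ (8 * N + 4 * (p - 1)) := by
        rw [pow_add, pow_mul, pow_mul]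
        apply mul_dvd_mul
        · exact pow_dvd_pow_of_dvd (by norm_num) N
        · exact pow_dvd_pow_of_dvd (by norm_num) (p - 1)
      exact h1.trans h5
    have h3 := hp.out.dvd_of_dvd_pow h2
    rcases (hp.out.dvd_mul).mp h3 with h4 | h4
    · rcases (hp.out.dvd_mul).mp h4 with h5 | h5
      · have := Nat.le_of_dvd (by norm_num) h5
        omega
      · have := Nat.le_of_dvd (by norm_num) h5
        omega
    · have := Nat.le_of_dvd (by norm_num) h4
      omega
  · have hXq : (X : ℚ) = ((p : ℚ) ^ 3) * a := by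
      rw [ha]
      push_cast
      ring
    rw [← hXq, hX]
    push_cast
    have e1 : (∑ k ∈ range (N + 1), (((2 * k).choose k : ℕ) : ℚ) ^ 3 / 256 ^ k) * 256 ^ N =
        ∑ k ∈ range (N + 1), (((2 * k).choose k : ℕ) : ℚ) ^ 3 * 256 ^ (N - k) := by
      rw [sum_mul]
      refine sum_congr rfl fun k hk => ?_
      have hk' : k ≤ N := by
        have := mem_range.mp hk
        omega
      have : (256 : ℚ) ^ N = 256 ^ k * 256 ^ (N - k) := by
        rw [← pow_add]
        congr 1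
        omega
      rw [this]
      field_simp
    have e2 : (∑ k ∈ range p,
          (((2 * k).choose k * (3 * k).choose k * (6 * k).choose (3 * k) : ℕ) : ℚ) / 54000 ^ k) *
            54000 ^ (p - 1) = ∑ k ∈ range p,
        (((2 * k).choose k * (3 * k).choose k * (6 * k).choose (3 * k) : ℕ) : ℚ) *
          54000 ^ (p - 1 - k) := by
      rw [sum_mul]
      refine sum_congr rfl fun k hk => ?_
      have hk' := mem_range.mp hk
      have : (54000 : ℚ) ^ (p - 1) = 54000 ^ k * 54000 ^ (p - 1 - k) := by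
        rw [← pow_add]
        congr 1
        omega
      rw [this]
      field_simp
    push_cast at e1 e2
    rw [← e1, ← e2]
    ring

end Pool.Agent.H97.Bin
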