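import Pool.Agent.H97.Bin.Base

namespace Pool.Agent.H97.Bin

open Finset

private theorem jets_nu {R : Type*} [CommRing R] (P y yi a1 a2 a3 : R) (hy : y * yi = 1)
    (hP : P ^ 3 = 0) :
    (y + a1 * P) * (y + a2 * P) * (y + a3 * P) =
      y ^ 3 * (1 + P * (a1 + a2 + a3) * yi + P ^ 2 * (a1 * a2 + a1 * a3 + a2 * a3) * yi ^ 2) := by
  linear_combination (a1 * a2 * a3) * hP - ((a1 + a2 + a3) * P * y ^ 2 +
    (a1 * a2 + a1 * a3 + a2 * a3) * P ^ 2 * y * (y * yi + 1)) * hy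

private theorem jets_de {R : Type*} [CommRing R] (P z zi b1 b2 b3 : R) (hz : z * zi = 1)
    (hP : P ^ 3 = 0) :
    ((z + b1 * P) * (z + b2 * P) * (z + b3 * P)) * (zi ^ 3 * (1 - P * (b1 + b2 + b3) * zi +
      P ^ 2 * ((b1 + b2 + b3) ^ 2 - (b1 * b2 + b1 * b3 + b2 * b3)) * zi ^ 2)) = 1 := by
  rw [jets_nu P z zi b1 b2 b3 hz hP]
  set s := b1 + b2 + b3
  set e := b1 * b2 + b1 * b3 + b2 * b3
  have h3 : z ^ 3 * zi ^ 3 = 1 := by rw [← mul_pow, hz, one_pow]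
  have h : (1 + P * s * zi + P ^ 2 * e * zi ^ 2) *
      (1 - P * s * zi + P ^ 2 * (s ^ 2 - e) * zi ^ 2) = 1 := by
    linear_combination ((s * (s ^ 2 - e) - s * e) * zi ^ 3 + P * e * (s ^ 2 - e) * zi ^ 4) * hP
  calc z ^ 3 * (1 + P * s * zi + P ^ 2 * e * zi ^ 2) *
        (zi ^ 3 * (1 - P * s * zi + P ^ 2 * (s ^ 2 - e) * zi ^ 2))
      = (z ^ 3 * zi ^ 3) * ((1 + P * s * zi + P ^ 2 * e * zi ^ 2) *
        (1 - P * s * zi + P ^ 2 * (s ^ 2 - e) * zi ^ 2)) := by ring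
    _ = 1 := by rw [h3, h, one_mul]

/-- The ratio of consecutive terms, with the inverse of `de` computed. -/
private theorem jets_ratio {R : Type*} [CommRing R] (P y yi zi a1 a2 a3 b1 b2 b3 : R)
    (hy : y * yi = 1) (hP : P ^ 3 = 0) (hs : a1 + a2 + a3 = b1 + b2 + b3) :
    2 * (((y + a1 * P) * (y + a2 * P) * (y + a3 * P)) * (zi ^ 3 * (1 - P * (b1 + b2 + b3) * zi +
      P ^ 2 * ((b1 + b2 + b3) ^ 2 - (b1 * b2 + b1 * b3 + b2 * b3)) * zi ^ 2))) =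
      y ^ 3 * zi ^ 3 * (2 + 2 * P * (b1 + b2 + b3) * (yi - zi) + P ^ 2 *
        ((b1 + b2 + b3) ^ 2 * (yi - zi) ^ 2 - (a1 ^ 2 + a2 ^ 2 + a3 ^ 2) * yi ^ 2 +
          (b1 ^ 2 + b2 ^ 2 + b3 ^ 2) * zi ^ 2)) := by
  rw [jets_nu P y yi a1 a2 a3 hy hP]
  have ha1 : a1 = b1 + b2 + b3 - a2 - a3 := by linear_combination hs
  subst ha1
  set e2a := (b1 + b2 + b3 - a2 - a3) * a2 + (b1 + b2 + b3 - a2 - a3) * a3 + a2 * a3 with he2a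
  set s := b1 + b2 + b3 with hs'
  set e := b1 * b2 + b1 * b3 + b2 * b3 with he
  have hA : (s - a2 - a3) ^ 2 + a2 ^ 2 + a3 ^ 2 = s ^ 2 - 2 * e2a := by
    rw [he2a]; ring
  have hB : b1 ^ 2 + b2 ^ 2 + b3 ^ 2 = s ^ 2 - 2 * e := by
    rw [he, hs']; ring
  rw [hA, hB]
  have hs2 : s - a2 - a3 + a2 + a3 = s := by ring
  rw [hs2]
  have key : 2 * ((1 + P * s * yi + P ^ 2 * e2a * yi ^ 2) *
      (1 - P * s * zi + P ^ 2 * (s ^ 2 - e) * zi ^ 2)) =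
      2 + 2 * P * s * (yi - zi) + P ^ 2 * (s ^ 2 * (yi - zi) ^ 2 - (s ^ 2 - 2 * e2a) * yi ^ 2 +
        (s ^ 2 - 2 * e) * zi ^ 2) := by
    linear_combination (2 * (s * yi * (s ^ 2 - e) * zi ^ 2 - e2a * yi ^ 2 * s * zi) +
      2 * P * e2a * yi ^ 2 * (s ^ 2 - e) * zi ^ 2) * hP
  calc 2 * (y ^ 3 * (1 + P * s * yi + P ^ 2 * e2a * yi ^ 2) *
        (zi ^ 3 * (1 - P * s * zi + P ^ 2 * (s ^ 2 - e) * zi ^ 2)))
      = y ^ 3 * zi ^ 3 * (2 * ((1 + P * s * yi + P ^ 2 * e2a * yi ^ 2) *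
        (1 - P * s * zi + P ^ 2 * (s ^ 2 - e) * zi ^ 2))) := by ring
    _ = _ := by rw [key]

private theorem jets_inv_eq {n : ℕ} (u v : ZMod n) (h : u * v = 1) : u⁻¹ = v := by
  have hu : IsUnit u := IsUnit.of_mul_eq_one v h
  calc u⁻¹ = u⁻¹ * (u * v) := by rw [h, mul_one]
    _ = (u * u⁻¹) * v := by ring
    _ = v := by rw [ZMod.mul_inv_of_unit u hu, one_mul]

private theorem jets_not_dvd_of_lt (p : ℕ) (z : ℤ) (h0 : 0 < z) (h1 : z < p) :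
    ¬ (p : ℤ) ∣ z := by
  intro h
  have := Int.le_of_dvd h0 h
  omega

/-- `2r+1`, `2r+2` are units for `r < (p - 1) / 2`. -/
private theorem jets_units (p : ℕ) (hp : p.Prime) (h7 : 7 ≤ p) (r : ℕ)
    (hr : r + 1 ≤ (p - 1) / 2) :
    ((2 * r + 1 : ZMod (p ^ 3)) * (2 * r + 1 : ZMod (p ^ 3))⁻¹ = 1) ∧
      ((2 * r + 2 : ZMod (p ^ 3)) * (2 * r + 2 : ZMod (p ^ 3))⁻¹ = 1) ∧
      ((4 : ZMod (p ^ 3)) * (4 : ZMod (p ^ 3))⁻¹ = 1) ∧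
      ((2 : ZMod (p ^ 3)) * (2 : ZMod (p ^ 3))⁻¹ = 1) := by
  have h1 := mul_inv_int p hp (2 * r + 1) (jets_not_dvd_of_lt p _ (by omega) (by omega))
  have h2 := mul_inv_int p hp (2 * r + 2) (jets_not_dvd_of_lt p _ (by omega) (by omega))
  have h3 := mul_inv_int p hp 4 (jets_not_dvd_of_lt p _ (by omega) (by omega))
  have h4 := mul_inv_int p hp 2 (jets_not_dvd_of_lt p _ (by omega) (by omega))
  push_cast at h1 h2 h3 h4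
  exact ⟨h1, h2, h3, h4⟩

private theorem jets_de_inv (p : ℕ) (hp : p.Prime) (h7 : 7 ≤ p) (b : ℤ × ℤ × ℤ) (r : ℕ)
    (hr : r + 1 ≤ (p - 1) / 2) :
    (4 * de p b r)⁻¹ = (4 : ZMod (p ^ 3))⁻¹ * (((2 * r + 2 : ZMod (p ^ 3))⁻¹) ^ 3 *
      (1 - (p : ZMod (p ^ 3)) * ((b.1 : ZMod (p ^ 3)) + b.2.1 + b.2.2) *
        (2 * r + 2 : ZMod (p ^ 3))⁻¹ +
      (p : ZMod (p ^ 3)) ^ 2 * (((b.1 : ZMod (p ^ 3)) + b.2.1 + b.2.2) ^ 2 -
        ((b.1 : ZMod (p ^ 3)) * b.2.1 + b.1 * b.2.2 + b.2.1 * b.2.2)) *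
        ((2 * r + 2 : ZMod (p ^ 3))⁻¹) ^ 2)) := by
  obtain ⟨-, hz, h4, -⟩ := jets_units p hp h7 r hr
  apply jets_inv_eq
  have h := jets_de (p : ZMod (p ^ 3)) (2 * r + 2) ((2 * r + 2 : ZMod (p ^ 3))⁻¹)
    b.1 b.2.1 b.2.2 hz (P3 p)
  unfold de
  calc _ = (4 * (4 : ZMod (p ^ 3))⁻¹) * (((2 * r + 2 + (b.1 : ZMod (p ^ 3)) * p) *
        (2 * r + 2 + b.2.1 * p) * (2 * r + 2 + b.2.2 * p)) * (((2 * r + 2 : ZMod (p ^ 3))⁻¹) ^ 3 *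
      (1 - (p : ZMod (p ^ 3)) * ((b.1 : ZMod (p ^ 3)) + b.2.1 + b.2.2) *
        (2 * r + 2 : ZMod (p ^ 3))⁻¹ +
      (p : ZMod (p ^ 3)) ^ 2 * (((b.1 : ZMod (p ^ 3)) + b.2.1 + b.2.2) ^ 2 -
        ((b.1 : ZMod (p ^ 3)) * b.2.1 + b.1 * b.2.2 + b.2.1 * b.2.2)) *
        ((2 * r + 2 : ZMod (p ^ 3))⁻¹) ^ 2))) := by ring
    _ = 1 := by rw [h4, h, one_mul]

private theorem jets_zero_ratio (p : ℕ) (hp : p.Prime) (h7 : 7 ≤ p) (r : ℕ)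
    (hr : r + 1 ≤ (p - 1) / 2) :
    nu p (0, 0, 0) r * (4 * de p (0, 0, 0) r)⁻¹ =
      (4 : ZMod (p ^ 3))⁻¹ * ((2 * r + 1) ^ 3 * ((2 * r + 2 : ZMod (p ^ 3))⁻¹) ^ 3) := by
  rw [jets_de_inv p hp h7 _ r hr]
  unfold nu
  push_cast
  ring

/-- Second order expansion of the terms. -/
theorem ff_jet (p : ℕ) (hp : p.Prime) (h7 : 7 ≤ p) (a b : ℤ × ℤ × ℤ) (σ : ℤ)
    (ha : a.1 + a.2.1 + a.2.2 = σ) (hb : b.1 + b.2.1 + b.2.2 = σ) (r : ℕ)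
    (hr : r ≤ (p - 1) / 2) :
    2 * ff p a b r = cc p r * (2 + 2 * p * σ * dd p r + (p : ZMod (p ^ 3)) ^ 2 *
      ((σ : ZMod (p ^ 3)) ^ 2 * dd p r ^ 2 -
        ((a.1 ^ 2 + a.2.1 ^ 2 + a.2.2 ^ 2 : ℤ) : ZMod (p ^ 3)) * h2 p r +
        ((b.1 ^ 2 + b.2.1 ^ 2 + b.2.2 ^ 2 : ℤ) : ZMod (p ^ 3)) * H2 p r)) := by
  induction r with
  | zero => simp [ff, cc, dd, h2, H2]
  | succ r ih =>
    have ih := ih (by omega)
    obtain ⟨hy, hz, h4, h22⟩ := jets_units p hp h7 r hr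
    have hP := P3 p
    have haR : (a.1 : ZMod (p ^ 3)) + a.2.1 + a.2.2 = σ := by
      rw [← ha]; push_cast; ring
    have hbR : (b.1 : ZMod (p ^ 3)) + b.2.1 + b.2.2 = σ := by
      rw [← hb]; push_cast; ring
    have hA : ((a.1 ^ 2 + a.2.1 ^ 2 + a.2.2 ^ 2 : ℤ) : ZMod (p ^ 3)) =
        (a.1 : ZMod (p ^ 3)) ^ 2 + (a.2.1 : ZMod (p ^ 3)) ^ 2 + (a.2.2 : ZMod (p ^ 3)) ^ 2 := by
      push_cast; ring
    have hB : ((b.1 ^ 2 + b.2.1 ^ 2 + b.2.2 ^ 2 : ℤ) : ZMod (p ^ 3)) =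
        (b.1 : ZMod (p ^ 3)) ^ 2 + (b.2.1 : ZMod (p ^ 3)) ^ 2 + (b.2.2 : ZMod (p ^ 3)) ^ 2 := by
      push_cast; ring
    have hratio := jets_ratio (p : ZMod (p ^ 3)) (2 * r + 1) ((2 * r + 1 : ZMod (p ^ 3))⁻¹)
      ((2 * r + 2 : ZMod (p ^ 3))⁻¹) a.1 a.2.1 a.2.2 b.1 b.2.1 b.2.2 hy hP
      (by rw [haR, hbR])
    have hcc : cc p (r + 1) = cc p r * ((4 : ZMod (p ^ 3))⁻¹ *
        ((2 * r + 1) ^ 3 * ((2 * r + 2 : ZMod (p ^ 3))⁻¹) ^ 3)) := by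
      have : cc p (r + 1) = cc p r * (nu p (0, 0, 0) r * (4 * de p (0, 0, 0) r)⁻¹) := rfl
      rw [this, jets_zero_ratio p hp h7 r hr]
    have hff : ff p a b (r + 1) = ff p a b r * (nu p a r * (4 * de p b r)⁻¹) := rfl
    have hnu : nu p a r = ((2 * r + 1 : ZMod (p ^ 3)) + a.1 * p) * (2 * r + 1 + a.2.1 * p) *
        (2 * r + 1 + a.2.2 * p) := rfl
    have hdd : dd p (r + 1) = dd p r + ((2 * r + 1 : ZMod (p ^ 3))⁻¹ -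
        (2 * r + 2 : ZMod (p ^ 3))⁻¹) := by
      unfold dd; rw [Finset.sum_range_succ]
    have hh2 : h2 p (r + 1) = h2 p r + ((2 * r + 1 : ZMod (p ^ 3))⁻¹) ^ 2 := by
      unfold h2; rw [Finset.sum_range_succ]
    have hH2 : H2 p (r + 1) = H2 p r + ((2 * r + 2 : ZMod (p ^ 3))⁻¹) ^ 2 := by
      unfold H2; rw [Finset.sum_range_succ]
    rw [hA, hB] at ih ⊢
    rw [hdd, hh2, hH2, hcc]
    rw [jets_de_inv p hp h7 b r hr] at hff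
    -- abbreviations
    generalize hyi : (2 * r + 1 : ZMod (p ^ 3))⁻¹ = yi at *
    generalize hzi : (2 * r + 2 : ZMod (p ^ 3))⁻¹ = zi at *
    generalize hi4 : (4 : ZMod (p ^ 3))⁻¹ = i4 at *
    rw [hbR] at hratio hff
    -- the doubled statement
    set P := (p : ZMod (p ^ 3)) with hPdef
    set s := (σ : ZMod (p ^ 3)) with hs
    set A2 := (a.1 : ZMod (p ^ 3)) ^ 2 + (a.2.1 : ZMod (p ^ 3)) ^ 2 +
      (a.2.2 : ZMod (p ^ 3)) ^ 2 with hA2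
    set B2 := (b.1 : ZMod (p ^ 3)) ^ 2 + (b.2.1 : ZMod (p ^ 3)) ^ 2 +
      (b.2.2 : ZMod (p ^ 3)) ^ 2 with hB2
    have hdouble : 2 * (2 * ff p a b (r + 1)) =
        2 * (cc p r * (i4 * ((2 * r + 1) ^ 3 * zi ^ 3)) *
        (2 + 2 * P * s * (dd p r + (yi - zi)) + P ^ 2 * (s ^ 2 * (dd p r + (yi - zi)) ^ 2 -
          A2 * (h2 p r + yi ^ 2) + B2 * (H2 p r + zi ^ 2)))) := by
      rw [hff, hnu]
      have e1 : 2 * (2 * (ff p a b r * ((((2 * r + 1 : ZMod (p ^ 3)) + a.1 * P) *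
          (2 * r + 1 + a.2.1 * P) * (2 * r + 1 + a.2.2 * P)) * (i4 * (zi ^ 3 *
          (1 - P * s * zi + P ^ 2 * (s ^ 2 - ((b.1 : ZMod (p ^ 3)) * b.2.1 + b.1 * b.2.2 +
            b.2.1 * b.2.2)) * zi ^ 2)))))) =
          (2 * ff p a b r) * (i4 * (2 * (((2 * r + 1 : ZMod (p ^ 3)) + a.1 * P) *
          (2 * r + 1 + a.2.1 * P) * (2 * r + 1 + a.2.2 * P) * (zi ^ 3 *
          (1 - P * s * zi + P ^ 2 * (s ^ 2 - ((b.1 : ZMod (p ^ 3)) * b.2.1 + b.1 * b.2.2 +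
            b.2.1 * b.2.2)) * zi ^ 2))))) := by ring
      rw [e1, hratio, ih]
      have key : (2 + 2 * P * s * dd p r + P ^ 2 * (s ^ 2 * dd p r ^ 2 - A2 * h2 p r +
          B2 * H2 p r)) * (2 + 2 * P * s * (yi - zi) + P ^ 2 * (s ^ 2 * (yi - zi) ^ 2 -
          A2 * yi ^ 2 + B2 * zi ^ 2)) =
          2 * (2 + 2 * P * s * (dd p r + (yi - zi)) + P ^ 2 * (s ^ 2 * (dd p r + (yi - zi)) ^ 2 -
          A2 * (h2 p r + yi ^ 2) + B2 * (H2 p r + zi ^ 2))) := by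
        linear_combination (2 * s * dd p r * (s ^ 2 * (yi - zi) ^ 2 - A2 * yi ^ 2 + B2 * zi ^ 2) +
          2 * s * (yi - zi) * (s ^ 2 * dd p r ^ 2 - A2 * h2 p r + B2 * H2 p r) +
          P * (s ^ 2 * dd p r ^ 2 - A2 * h2 p r + B2 * H2 p r) *
            (s ^ 2 * (yi - zi) ^ 2 - A2 * yi ^ 2 + B2 * zi ^ 2)) * hP
      calc _ = cc p r * (i4 * ((2 * r + 1) ^ 3 * zi ^ 3)) *
            ((2 + 2 * P * s * dd p r + P ^ 2 * (s ^ 2 * dd p r ^ 2 - A2 * h2 p r +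
          B2 * H2 p r)) * (2 + 2 * P * s * (yi - zi) + P ^ 2 * (s ^ 2 * (yi - zi) ^ 2 -
          A2 * yi ^ 2 + B2 * zi ^ 2))) := by ring
        _ = _ := by rw [key]; ring
    have hinj : ∀ x y : ZMod (p ^ 3), 2 * x = 2 * y → x = y := by
      intro x y hxy
      calc x = (2 * (2 : ZMod (p ^ 3))⁻¹) * x := by rw [h22, one_mul]
        _ = (2 : ZMod (p ^ 3))⁻¹ * (2 * x) := by ring
        _ = (2 : ZMod (p ^ 3))⁻¹ * (2 * y) := by rw [hxy]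
        _ = (2 * (2 : ZMod (p ^ 3))⁻¹) * y := by ring
        _ = y := by rw [h22, one_mul]
    exact hinj _ _ hdouble

theorem BB_jet (p : ℕ) (hp : p.Prime) (h7 : 7 ≤ p) (a b : ℤ × ℤ × ℤ) (σ : ℤ)
    (ha : a.1 + a.2.1 + a.2.2 = σ) (hb : b.1 + b.2.1 + b.2.2 = σ) :
    2 * BB p a b = 2 * Phi p + 2 * p * σ * DD p + (p : ZMod (p ^ 3)) ^ 2 *
      ((σ : ZMod (p ^ 3)) ^ 2 * RR p -
        ((a.1 ^ 2 + a.2.1 ^ 2 + a.2.2 ^ 2 : ℤ) : ZMod (p ^ 3)) * Q4 p +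
        ((b.1 ^ 2 + b.2.1 ^ 2 + b.2.2 ^ 2 : ℤ) : ZMod (p ^ 3)) * Q5 p) := by
  generalize hA : ((a.1 ^ 2 + a.2.1 ^ 2 + a.2.2 ^ 2 : ℤ) : ZMod (p ^ 3)) = A
  generalize hB : ((b.1 ^ 2 + b.2.1 ^ 2 + b.2.2 ^ 2 : ℤ) : ZMod (p ^ 3)) = B
  unfold BB Phi DD RR Q4 Q5
  simp only [Finset.mul_sum, ← Finset.sum_add_distrib, ← Finset.sum_sub_distrib]
  refine Finset.sum_congr rfl fun r hr => ?_
  rw [Finset.mem_range] at hr
  rw [ff_jet p hp h7 a b σ ha hb r (by omega), hA, hB]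
  ring

/-- The terms of the series are `choose (2r) r ^ 3 / 256 ^ r`. -/
theorem cc_eq (p : ℕ) (hp : p.Prime) (h7 : 7 ≤ p) (r : ℕ) (hr : r ≤ (p - 1) / 2) :
    cc p r * 256 ^ r = (((2 * r).choose r : ℕ) : ZMod (p ^ 3)) ^ 3 := by
  induction r with
  | zero => simp [cc, ff]
  | succ r ih =>
    have ih := ih (by omega)
    obtain ⟨hy, hz, h4, h22⟩ := jets_units p hp h7 r hr
    have hcc : cc p (r + 1) = cc p r * ((4 : ZMod (p ^ 3))⁻¹ *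
        ((2 * r + 1) ^ 3 * ((2 * r + 2 : ZMod (p ^ 3))⁻¹) ^ 3)) := by
      have : cc p (r + 1) = cc p r * (nu p (0, 0, 0) r * (4 * de p (0, 0, 0) r)⁻¹) := rfl
      rw [this, jets_zero_ratio p hp h7 r hr]
    have hcb : ((r + 1 : ℕ) : ZMod (p ^ 3)) * ((2 * (r + 1)).choose (r + 1) : ℕ) =
        2 * (2 * r + 1) * (((2 * r).choose r : ℕ) : ZMod (p ^ 3)) := by
      have h := Nat.succ_mul_centralBinom_succ r
      unfold Nat.centralBinom at h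
      have h' := congrArg (Nat.cast : ℕ → ZMod (p ^ 3)) h
      push_cast at h' ⊢
      linear_combination h'
    push_cast at hcb
    set c' := (((2 * (r + 1)).choose (r + 1) : ℕ) : ZMod (p ^ 3)) with hc'
    set c := (((2 * r).choose r : ℕ) : ZMod (p ^ 3)) with hc
    generalize (4 : ZMod (p ^ 3))⁻¹ = i4 at *
    generalize (2 * r + 2 : ZMod (p ^ 3))⁻¹ = zi at *
    rw [hcc]
    -- c' = 2 (2r+1) * 2 * zi * c
    have hc2 : c' = 4 * (2 * r + 1) * zi * c := by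
      calc c' = ((2 * r + 2) * zi) * c' := by rw [hz, one_mul]
        _ = 2 * zi * (((r : ZMod (p ^ 3)) + 1) * c') := by ring
        _ = 2 * zi * (2 * (2 * r + 1) * c) := by rw [hcb]
        _ = _ := by ring
    rw [hc2]
    have h256 : (256 : ZMod (p ^ 3)) ^ (r + 1) = 256 ^ r * (4 * 64) := by
      ring
    rw [h256]
    calc cc p r * (i4 * ((2 * r + 1) ^ 3 * zi ^ 3)) * (256 ^ r * (4 * 64))
        = (cc p r * 256 ^ r) * (4 * i4) * (64 * (2 * r + 1) ^ 3 * zi ^ 3) := by ring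
      _ = c ^ 3 * (64 * (2 * r + 1) ^ 3 * zi ^ 3) := by rw [ih, h4, mul_one]
      _ = (4 * (2 * r + 1) * zi * c) ^ 3 := by ring

end Pool.Agent.H97.Bin
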