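import Pool.Agent.H97.Bin.Base

namespace Pool.Agent.H97.Bin

open Finset

/-- Product of two second order jets. -/
theorem TSide_jet_mul {R : Type} [CommRing R] (x a0 a1 a2 b0 b1 b2 : R) (hx : x ^ 3 = 0) :
    (a0 + x * a1 + x ^ 2 * a2) * (b0 + x * b1 + x ^ 2 * b2) =
      a0 * b0 + x * (a0 * b1 + a1 * b0) + x ^ 2 * (a0 * b2 + a1 * b1 + a2 * b0) := by
  linear_combination (a1 * b2 + a2 * b1 + x * (a2 * b2)) * hx

theorem TSide_inv_eq {n : ℕ} (a b : ZMod n) (h : a * b = 1) : a⁻¹ = b := by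
  have hu : IsUnit a := IsUnit.of_mul_eq_one _ h
  have h1 := ZMod.inv_mul_of_unit a hu
  calc a⁻¹ = a⁻¹ * (a * b) := by rw [h, mul_one]
    _ = (a⁻¹ * a) * b := by ring
    _ = b := by rw [h1, one_mul]

theorem TSide_ndvd1 (p : ℕ) (k : ℕ) (hk : k + 1 < p) : ¬ (p : ℤ) ∣ ((k : ℤ) + 1) := by
  intro h
  have := Int.le_of_dvd (by omega) h
  omega

theorem TSide_ndvd2 (p : ℕ) (hp : p.Prime) (h7 : 7 ≤ p) (k : ℕ) (hk : k + 1 < p) :
    ¬ (p : ℤ) ∣ (2 * (k : ℤ) + 2) := by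
  intro h
  have h1 : (2 * (k : ℤ) + 2) = 2 * ((k : ℤ) + 1) := by ring
  rw [h1] at h
  rcases (Nat.prime_iff_prime_int.mp hp).dvd_or_dvd h with h2 | h2
  · have := Int.le_of_dvd (by omega) h2
    omega
  · exact TSide_ndvd1 p k hk h2

theorem TSide_ndvd3 (p : ℕ) (hp : p.Prime) (h7 : 7 ≤ p) : ¬ (p : ℤ) ∣ 3375 := by
  intro h
  have h1 : (3375 : ℤ) = 15 ^ 3 := by norm_num
  rw [h1] at h
  have h2 := (Nat.prime_iff_prime_int.mp hp).dvd_of_dvd_pow h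
  have h3 : (15 : ℤ) = 3 * 5 := by norm_num
  rw [h3] at h2
  rcases (Nat.prime_iff_prime_int.mp hp).dvd_or_dvd h2 with h4 | h4
  · have := Int.le_of_dvd (by omega) h4
    omega
  · have := Int.le_of_dvd (by omega) h4
    omega

/-- The denominators are units. -/
theorem TSide_den_unit (p : ℕ) (hp : p.Prime) (h7 : 7 ≤ p) (k : ℕ) (hk : k + 1 < p) (i : ℤ) :
    IsUnit (3375 * ((k + 1) * (k + 1) * (2 * k + 2 - i * p)) : ZMod (p ^ 3)) := by
  have h1 := unit_int p hp 3375 (TSide_ndvd3 p hp h7)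
  have h2 := unit_int p hp ((k : ℤ) + 1) (TSide_ndvd1 p k hk)
  have h3 := unit_int p hp (2 * (k : ℤ) + 2 + (-i) * p)
    (not_dvd_add p _ _ (TSide_ndvd2 p hp h7 k hk))
  have h4 : (3375 * ((k + 1) * (k + 1) * (2 * k + 2 - i * p)) : ZMod (p ^ 3)) =
      ((3375 : ℤ) : ZMod (p ^ 3)) * ((((k : ℤ) + 1 : ℤ) : ZMod (p ^ 3)) *
        (((k : ℤ) + 1 : ℤ) : ZMod (p ^ 3)) *
        ((2 * (k : ℤ) + 2 + (-i) * p : ℤ) : ZMod (p ^ 3))) := by
    push_cast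
    ring
  rw [h4]
  exact h1.mul ((h2.mul h2).mul h3)

/-- The terms are second order polynomials in `i`. -/
theorem ps_jet (p : ℕ) (hp : p.Prime) (h7 : 7 ≤ p) (k : ℕ) (hk : k < p) :
    ∃ B C : ZMod (p ^ 3), ∀ i : ℤ, ps p i k = ps p 0 k +
      (i : ZMod (p ^ 3)) * (p : ZMod (p ^ 3)) * B +
      ((i : ZMod (p ^ 3)) * (p : ZMod (p ^ 3))) ^ 2 * C := by
  induction k with
  | zero => exact ⟨0, 0, fun i => by simp [ps]⟩
  | succ k ih =>
    obtain ⟨B, C, hBC⟩ := ih (by omega)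
    have hz := mul_inv_int p hp (2 * (k : ℤ) + 2) (TSide_ndvd2 p hp h7 k hk)
    obtain ⟨z, hzdef⟩ : ∃ z : ZMod (p ^ 3), z = ((2 * (k : ℤ) + 2 : ℤ) : ZMod (p ^ 3))⁻¹ :=
      ⟨_, rfl⟩
    rw [← hzdef] at hz
    push_cast at hz
    have hw1 := mul_inv_int p hp ((k : ℤ) + 1) (TSide_ndvd1 p k hk)
    obtain ⟨y, hydef⟩ : ∃ y : ZMod (p ^ 3), y = (((k : ℤ) + 1 : ℤ) : ZMod (p ^ 3))⁻¹ :=
      ⟨_, rfl⟩
    rw [← hydef] at hw1
    push_cast at hw1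
    have hc := mul_inv_int p hp 3375 (TSide_ndvd3 p hp h7)
    obtain ⟨c, hcdef⟩ : ∃ c : ZMod (p ^ 3), c = ((3375 : ℤ) : ZMod (p ^ 3))⁻¹ :=
      ⟨_, rfl⟩
    rw [← hcdef] at hc
    push_cast at hc
    have hinv : ∀ i : ℤ, (3375 * ((k + 1) * (k + 1) * (2 * k + 2 - i * p)) : ZMod (p ^ 3))⁻¹ =
        c * y ^ 2 * z + ((i : ZMod (p ^ 3)) * (p : ZMod (p ^ 3))) * (c * y ^ 2 * z ^ 2)
          + ((i : ZMod (p ^ 3)) * (p : ZMod (p ^ 3))) ^ 2 * (c * y ^ 2 * z ^ 3) := by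
      intro i
      apply TSide_inv_eq
      have hx : ((i : ZMod (p ^ 3)) * (p : ZMod (p ^ 3))) ^ 3 = 0 := by rw [mul_pow, P3, mul_zero]
      obtain ⟨x, hxd⟩ : ∃ x : ZMod (p ^ 3), x = (i : ZMod (p ^ 3)) * (p : ZMod (p ^ 3)) := ⟨_, rfl⟩
      rw [← hxd] at hx ⊢
      have e1 : (2 * (k : ZMod (p ^ 3)) + 2 - x) * (z + x * z ^ 2 + x ^ 2 * z ^ 3) = 1 := by
        linear_combination (1 + x * z + x ^ 2 * z ^ 2) * hz - z ^ 3 * hx
      have e2 : ((k : ZMod (p ^ 3)) + 1) * (k + 1) * y ^ 2 = 1 := by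
        linear_combination (((k : ZMod (p ^ 3)) + 1) * y + 1) * hw1
      calc 3375 * ((k + 1) * (k + 1) * (2 * k + 2 - x)) *
          (c * y ^ 2 * z + x * (c * y ^ 2 * z ^ 2) + x ^ 2 * (c * y ^ 2 * z ^ 3))
          = (3375 * c) * (((k : ZMod (p ^ 3)) + 1) * (k + 1) * y ^ 2) *
            ((2 * (k : ZMod (p ^ 3)) + 2 - x) * (z + x * z ^ 2 + x ^ 2 * z ^ 3)) := by ring
        _ = 1 := by rw [hc, e1, e2]; ring
    obtain ⟨K, hK⟩ : ∃ K : ZMod (p ^ 3), K = 6 * (k : ZMod (p ^ 3)) := ⟨_, rfl⟩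
    obtain ⟨n0, hn0⟩ : ∃ n0 : ZMod (p ^ 3), n0 = (K + 1) * (K + 3) * (K + 5) := ⟨_, rfl⟩
    obtain ⟨n1, hn1⟩ : ∃ n1 : ZMod (p ^ 3), n1 = -((K + 1) * (K + 3) + (K + 1) * (K + 5)
      + (K + 3) * (K + 5)) := ⟨_, rfl⟩
    obtain ⟨n2, hn2⟩ : ∃ n2 : ZMod (p ^ 3), n2 = 3 * K + 9 := ⟨_, rfl⟩
    have hgen : ∀ i : ℤ, ps p i (k + 1) =
        (ps p 0 k * n0) * (c * y ^ 2 * z) + ((i : ZMod (p ^ 3)) * (p : ZMod (p ^ 3))) *
          ((ps p 0 k * n0) * (c * y ^ 2 * z ^ 2) + (ps p 0 k * n1 + B * n0) * (c * y ^ 2 * z))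
        + ((i : ZMod (p ^ 3)) * (p : ZMod (p ^ 3))) ^ 2 *
          ((ps p 0 k * n0) * (c * y ^ 2 * z ^ 3) + (ps p 0 k * n1 + B * n0) * (c * y ^ 2 * z ^ 2)
            + (ps p 0 k * n2 + B * n1 + C * n0) * (c * y ^ 2 * z)) := by
      intro i
      have hx : ((i : ZMod (p ^ 3)) * (p : ZMod (p ^ 3))) ^ 3 = 0 := by rw [mul_pow, P3, mul_zero]
      have e0 : ps p i (k + 1) = ps p i k *
        (((6 * k + 1 - i * p) * (6 * k + 3 - i * p) * (6 * k + 5 - i * p)) *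
          (3375 * ((k + 1) * (k + 1) * (2 * k + 2 - i * p)) : ZMod (p ^ 3))⁻¹) := rfl
      rw [e0, hinv i, hBC i]
      obtain ⟨x, hxd⟩ : ∃ x : ZMod (p ^ 3), x = (i : ZMod (p ^ 3)) * (p : ZMod (p ^ 3)) := ⟨_, rfl⟩
      rw [← hxd] at hx ⊢
      have e3 : (6 * (k : ZMod (p ^ 3)) + 1 - x) * (6 * k + 3 - x) * (6 * k + 5 - x)
          = n0 + x * n1 + x ^ 2 * n2 := by
        rw [hn0, hn1, hn2, ← hK]
        linear_combination (-1 : ZMod (p ^ 3)) * hx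
      rw [e3, ← mul_assoc, TSide_jet_mul x _ _ _ _ _ _ hx, TSide_jet_mul x _ _ _ _ _ _ hx]
    refine ⟨(ps p 0 k * n0) * (c * y ^ 2 * z ^ 2) + (ps p 0 k * n1 + B * n0) * (c * y ^ 2 * z),
      (ps p 0 k * n0) * (c * y ^ 2 * z ^ 3) + (ps p 0 k * n1 + B * n0) * (c * y ^ 2 * z ^ 2)
            + (ps p 0 k * n2 + B * n1 + C * n0) * (c * y ^ 2 * z), fun i => ?_⟩
    rw [hgen i, hgen 0]
    push_cast
    ring

theorem ps_interp (p : ℕ) (hp : p.Prime) (h7 : 7 ≤ p) (k : ℕ) (hk : k < p) :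
    8 * ps p 0 k = 15 * ps p 1 k - 10 * ps p 3 k + 3 * ps p 5 k := by
  obtain ⟨B, C, h⟩ := ps_jet p hp h7 k hk
  rw [h 1, h 3, h 5]
  push_cast
  ring

theorem W_term (p : ℕ) (hp : p.Prime) (h7 : 7 ≤ p) (W : ℕ → ℤ) (i : ℤ)
    (hW : ∀ k : ℕ, W (k + 1) * (3375 * ((k + 1) * (k + 1) * (2 * k + 2 - i * p))) =
      W k * ((6 * k + 1 - i * p) * (6 * k + 3 - i * p) * (6 * k + 5 - i * p)))
    (k : ℕ) (hk : k < p) : (W k : ZMod (p ^ 3)) = W 0 * ps p i k := by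
  induction k with
  | zero => simp [ps]
  | succ k ih =>
    have h1 := ih (by omega)
    have h2 := congrArg (Int.cast : ℤ → ZMod (p ^ 3)) (hW k)
    push_cast at h2
    have hu := ZMod.mul_inv_of_unit _ (TSide_den_unit p hp h7 k hk i)
    have e0 : ps p i (k + 1) = ps p i k *
        (((6 * k + 1 - i * p) * (6 * k + 3 - i * p) * (6 * k + 5 - i * p)) *
          (3375 * ((k + 1) * (k + 1) * (2 * k + 2 - i * p)) : ZMod (p ^ 3))⁻¹) := rfl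
    rw [e0]
    obtain ⟨u, hud⟩ : ∃ u : ZMod (p ^ 3),
      u = (3375 * ((k + 1) * (k + 1) * (2 * k + 2 - i * p)) : ZMod (p ^ 3)) := ⟨_, rfl⟩
    rw [← hud] at hu h2 ⊢
    obtain ⟨t, htd⟩ : ∃ t : ZMod (p ^ 3), t = u⁻¹ := ⟨_, rfl⟩
    rw [← htd] at hu ⊢
    rw [h1] at h2
    linear_combination (-(W (k + 1) : ZMod (p ^ 3))) * hu + t * h2

theorem TSide_fact (k : ℕ) :
    ((2 * k).choose k * (3 * k).choose k * (6 * k).choose (3 * k)) *
      (k.factorial ^ 3 * (3 * k).factorial) = (6 * k).factorial := by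
  have h1 := Nat.choose_mul_factorial_mul_factorial (show k ≤ 2 * k by omega)
  have h2 := Nat.choose_mul_factorial_mul_factorial (show k ≤ 3 * k by omega)
  have h3 := Nat.choose_mul_factorial_mul_factorial (show 3 * k ≤ 6 * k by omega)
  rw [show 2 * k - k = k by omega] at h1
  rw [show 3 * k - k = 2 * k by omega] at h2
  rw [show 6 * k - 3 * k = 3 * k by omega] at h3
  have hpos : 0 < (2 * k).factorial * (3 * k).factorial := by positivity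
  refine Nat.eq_of_mul_eq_mul_right hpos ?_
  calc _ = ((2 * k).choose k * k.factorial * k.factorial) *
        ((3 * k).choose k * k.factorial * (2 * k).factorial) *
        ((6 * k).choose (3 * k) * (3 * k).factorial * (3 * k).factorial) := by ring
    _ = _ := by rw [h1, h2, h3]; ring

theorem TSide_step (k : ℕ) :
    ((2 * (k + 1)).choose (k + 1) * (3 * (k + 1)).choose (k + 1) *
      (6 * (k + 1)).choose (3 * (k + 1))) * (k + 1) ^ 3 =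
    ((2 * k).choose k * (3 * k).choose k * (6 * k).choose (3 * k)) *
      (8 * ((6 * k + 1) * (6 * k + 3) * (6 * k + 5))) := by
  have h1 := TSide_fact k
  have h2 := TSide_fact (k + 1)
  have e1 : (6 * (k + 1)).factorial = (6 * k + 6) * ((6 * k + 5) * ((6 * k + 4) *
      ((6 * k + 3) * ((6 * k + 2) * ((6 * k + 1) * (6 * k).factorial))))) := by
    rw [show 6 * (k + 1) = 6 * k + 5 + 1 by ring, Nat.factorial_succ,
      show 6 * k + 5 = 6 * k + 4 + 1 by ring, Nat.factorial_succ,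
      show 6 * k + 4 = 6 * k + 3 + 1 by ring, Nat.factorial_succ,
      show 6 * k + 3 = 6 * k + 2 + 1 by ring, Nat.factorial_succ,
      show 6 * k + 2 = 6 * k + 1 + 1 by ring, Nat.factorial_succ, Nat.factorial_succ]
  have e2 : (3 * (k + 1)).factorial = (3 * k + 3) * ((3 * k + 2) * ((3 * k + 1) *
      (3 * k).factorial)) := by
    rw [show 3 * (k + 1) = 3 * k + 2 + 1 by ring, Nat.factorial_succ,
      show 3 * k + 2 = 3 * k + 1 + 1 by ring, Nat.factorial_succ, Nat.factorial_succ]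
  rw [e1, e2, ← h1, Nat.factorial_succ] at h2
  have hpos : 0 < k.factorial ^ 3 * (3 * k).factorial * ((3 * k + 3) * (3 * k + 2) *
    (3 * k + 1)) := by positivity
  refine Nat.eq_of_mul_eq_mul_right hpos ?_
  calc _ = ((2 * (k + 1)).choose (k + 1) * (3 * (k + 1)).choose (k + 1) *
      (6 * (k + 1)).choose (3 * (k + 1))) * (((k + 1) * k.factorial) ^ 3 *
        ((3 * k + 3) * ((3 * k + 2) * ((3 * k + 1) * (3 * k).factorial)))) := by ring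
    _ = _ := by rw [h2]; ring

/-- The undeformed terms. -/
theorem ps_zero_eq (p : ℕ) (hp : p.Prime) (h7 : 7 ≤ p) (k : ℕ) (hk : k < p) :
    ps p 0 k * 54000 ^ k =
      (((2 * k).choose k * (3 * k).choose k * (6 * k).choose (3 * k) : ℕ) : ZMod (p ^ 3)) := by
  induction k with
  | zero => simp [ps]
  | succ k ih =>
    have h1 := ih (by omega)
    have h2 : (((2 * (k + 1)).choose (k + 1) *
      (3 * (k + 1)).choose (k + 1) * (6 * (k + 1)).choose (3 * (k + 1)) : ℕ) : ZMod (p ^ 3)) *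
        ((k : ZMod (p ^ 3)) + 1) ^ 3 =
        (((2 * k).choose k * (3 * k).choose k * (6 * k).choose (3 * k) : ℕ) : ZMod (p ^ 3)) *
        (8 * ((6 * k + 1) * (6 * k + 3) * (6 * k + 5))) := by
      exact_mod_cast congrArg (Nat.cast : ℕ → ZMod (p ^ 3)) (TSide_step k)
    rw [← h1] at h2
    obtain ⟨a, ha⟩ : ∃ a : ZMod (p ^ 3), a = (((2 * (k + 1)).choose (k + 1) *
      (3 * (k + 1)).choose (k + 1) * (6 * (k + 1)).choose (3 * (k + 1)) : ℕ) :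
        ZMod (p ^ 3)) := ⟨_, rfl⟩
    rw [← ha] at h2 ⊢
    have hu := ZMod.mul_inv_of_unit _ (TSide_den_unit p hp h7 k hk 0)
    have e0 : ps p 0 (k + 1) = ps p 0 k *
        (((6 * k + 1 - (0 : ℤ) * p) * (6 * k + 3 - (0 : ℤ) * p) * (6 * k + 5 - (0 : ℤ) * p)) *
          (3375 * ((k + 1) * (k + 1) * (2 * k + 2 - (0 : ℤ) * p)) : ZMod (p ^ 3))⁻¹) := rfl
    rw [e0]
    obtain ⟨t, htd⟩ : ∃ t : ZMod (p ^ 3),
      t = (3375 * ((k + 1) * (k + 1) * (2 * k + 2 - (0 : ℤ) * p)) : ZMod (p ^ 3))⁻¹ :=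
      ⟨_, rfl⟩
    rw [← htd] at hu ⊢
    push_cast at hu ⊢
    linear_combination (-(6750 * t)) * h2 + a * hu

end Pool.Agent.H97.Bin
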