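import Pool.Agent.H97.Bin.Recur
import Pool.Agent.H97.Bin.Jets
import Pool.Agent.H97.Bin.Block
import Pool.Agent.H97.Bin.TSide
import Pool.Agent.H97.Bin.Alg

/-! Assembly of the proof. -/

namespace Pool.Agent.H97.Bin

open Finset

theorem BB2 (p : ℕ) (hp : p.Prime) (h7 : 7 ≤ p) (a b : ℤ × ℤ × ℤ) (s A B : ℤ)
    (h1 : a.1 + a.2.1 + a.2.2 = s) (h2 : b.1 + b.2.1 + b.2.2 = s)
    (h3 : a.1 ^ 2 + a.2.1 ^ 2 + a.2.2 ^ 2 = A) (h4 : b.1 ^ 2 + b.2.1 ^ 2 + b.2.2 ^ 2 = B) :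
    2 * BB p a b = jet (p : ZMod (p ^ 3)) (Phi p) (DD p) (RR p) (Q4 p) (Q5 p) s A B := by
  rw [BB_jet p hp h7 a b s h1 h2, h3, h4]
  rfl

theorem nat_unit (p : ℕ) (hp : p.Prime) (z : ℕ) (h : ¬ p ∣ z) : IsUnit (z : ZMod (p ^ 3)) := by
  have := unit_int p hp (z : ℤ) (by exact_mod_cast h)
  exact_mod_cast this

/-- Numbers with small prime factors are units. -/
theorem smooth_unit (p : ℕ) (hp : p.Prime) (h7 : 7 ≤ p) (a b c : ℕ) :
    IsUnit (((2 ^ a * 3 ^ b * 5 ^ c : ℕ)) : ZMod (p ^ 3)) := by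
  apply nat_unit p hp
  intro h
  rcases (Nat.Prime.dvd_mul hp).mp h with h | h
  · rcases (Nat.Prime.dvd_mul hp).mp h with h | h
    · have := Nat.le_of_dvd (by norm_num) (hp.dvd_of_dvd_pow h)
      omega
    · have := Nat.le_of_dvd (by norm_num) (hp.dvd_of_dvd_pow h)
      omega
  · have := Nat.le_of_dvd (by norm_num) (hp.dvd_of_dvd_pow h)
    omega

theorem central_unit (p : ℕ) (hp : p.Prime) (h7 : 7 ≤ p) (m n : ℕ) (hm : m ≤ 2)
    (hn : 2 * n + 1 = (2 * m + 1) * p) : IsUnit (((2 * n).choose n : ℕ) : ZMod (p ^ 3)) := by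
  have : Fact p.Prime := ⟨hp⟩
  apply nat_unit p hp
  intro h
  obtain ⟨N, hN⟩ : ∃ N, p = 2 * N + 1 := by
    rcases hp.eq_two_or_odd' with h2 | ⟨N, hN⟩
    · omega
    · exact ⟨N, hN⟩
  have hL := Choose.choose_modEq_choose_mod_mul_choose_div_nat (n := 2 * n) (k := n) (p := p)
  have e1 : n = m * p + N := by
    rw [hN] at hn ⊢
    nlinarith
  have e2 : 2 * n = (2 * m) * p + (p - 1) := by
    rw [e1]
    have : p - 1 = 2 * N := by omega
    rw [this]; ring
  have hNp : N < p := by omega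
  have hp1 : p - 1 < p := by omega
  have m1 : n % p = N := by rw [e1, mul_comm, Nat.mul_add_mod, Nat.mod_eq_of_lt hNp]
  have d1 : n / p = m := by
    rw [e1, mul_comm, Nat.mul_add_div hp.pos, Nat.div_eq_of_lt hNp, add_zero]
  have m2 : (2 * n) % p = p - 1 := by rw [e2, mul_comm, Nat.mul_add_mod, Nat.mod_eq_of_lt hp1]
  have d2 : (2 * n) / p = 2 * m := by
    rw [e2, mul_comm, Nat.mul_add_div hp.pos, Nat.div_eq_of_lt hp1, add_zero]
  rw [m1, d1, m2, d2] at hL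
  have h2 : p ∣ (p - 1).choose N * (2 * m).choose m :=
    (Nat.modEq_zero_iff_dvd).mp (hL.symm.trans ((Nat.modEq_zero_iff_dvd).mpr h))
  rcases (Nat.Prime.dvd_mul hp).mp h2 with h3 | h3
  · have h4 : (p - 1).choose N ∣ (p - 1).factorial := by
      have := Nat.choose_mul_factorial_mul_factorial (show N ≤ p - 1 by omega)
      exact ⟨_, by rw [← this, mul_assoc]⟩
    have h5 := (Nat.Prime.dvd_factorial hp).mp (h3.trans h4)
    omega
  · interval_cases m
    · have := Nat.le_of_dvd (by norm_num) h3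
      norm_num at this
      omega
    · have := Nat.le_of_dvd (by decide) h3
      norm_num [Nat.choose] at this
      omega
    · have := Nat.le_of_dvd (by decide) h3
      norm_num [Nat.choose] at this
      omega

/-- Extension of the range of summation. -/
theorem sum_extend (U : ℕ → ℤ) (R : Type) [CommRing R] (n K : ℕ) (hK : n + 1 ≤ K)
    (h0 : ∀ k, n < k → U k = 0) :
    ∑ k ∈ range K, (U k : R) = ((∑ k ∈ range (n + 1), U k : ℤ) : R) := by
  rw [Int.cast_sum]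
  symm
  apply sum_subset
  · intro x hx
    rw [mem_range] at *
    omega
  · intro x _ hx
    rw [mem_range] at hx
    rw [h0 x (by omega), Int.cast_zero]

theorem VV_zero (n k : ℕ) (h : n < k) : VV n k = 0 := by
  unfold VV
  rw [Nat.choose_eq_zero_of_lt h]
  simp

theorem UU_zero (n k : ℕ) (h : n < k) : UU n k = 0 := by
  unfold UU
  rw [Nat.choose_eq_zero_of_lt h]
  simp

theorem VV_hU (n p : ℕ) (i : ℤ) (h : 2 * (n : ℤ) + 1 = i * p) (k : ℕ) :
    VV n (k + 1) * (4 * ((2 * k + 2 + (0 : ℤ) * p) * (2 * k + 2 + (0 : ℤ) * p) *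
        (2 * k + 2 + (-i) * p))) =
      VV n k * ((2 * k + 1 + (-i) * p) * (2 * k + 1 + (-i) * p) * (2 * k + 1 + i * p)) := by
  have := VV_succ n k i p h
  linear_combination this

theorem UU_hU (n p : ℕ) (i c : ℤ) (h : 2 * (n : ℤ) + 1 = i * p) (hc : c = -2 * i) (k : ℕ) :
    UU n (k + 1) * (4 * ((2 * k + 2 + (0 : ℤ) * p) * (2 * k + 2 + (0 : ℤ) * p) *
        (2 * k + 2 + c * p))) =
      UU n k * ((2 * k + 1 + (-i) * p) * (2 * k + 1 + (-i) * p) * (2 * k + 1 + (0 : ℤ) * p)) := by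
  have := UU_succ n k i p h
  rw [hc]
  linear_combination this

/-- First relation. -/
theorem REL1 (p : ℕ) (hp : p.Prime) (h7 : 7 ≤ p) (w : ZMod (p ^ 3))
    (hw : vv p = 1 + (p : ZMod (p ^ 3)) * w) :
    (p : ZMod (p ^ 3)) * (w * Phi p + 6 * DD p + 3 * (p : ZMod (p ^ 3)) * w * DD p) = 0 := by
  obtain ⟨N, hN⟩ : ∃ N, p = 2 * N + 1 := by
    rcases hp.eq_two_or_odd' with h2 | ⟨N, hN⟩
    · omega
    · exact ⟨N, hN⟩
  set n := p + N with hn
  have hn1 : 2 * n + 1 = (2 * 1 + 1) * p := by omega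
  have hn2 : 2 * (n : ℤ) + 1 = (3 : ℤ) * p := by
    have : ((2 * n + 1 : ℕ) : ℤ) = (((2 * 1 + 1) * p : ℕ) : ℤ) := by rw [hn1]
    push_cast at this
    linarith
  have hsum := block_sum p hp h7 (VV n) (-3, -3, 3) (0, 0, -3) (VV_hU n p 3 hn2) 1
  rw [sum_extend (VV n) _ n ((1 + 1) * p) (by omega) (fun k hk => VV_zero n k hk),
    VV_sum n (by omega), Int.cast_zero] at hsum
  have hstep := block_step p hp h7 (VV n) (-3, -3, 3) (0, 0, -3) (VV_hU n p 3 hn2) 0
  have hV0 : (VV n 0 : ZMod (p ^ 3)) = (((2 * n).choose n : ℕ) : ZMod (p ^ 3)) := by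
    unfold VV
    simp
  have hunit := central_unit p hp h7 1 n (by norm_num) hn1
  rw [← hV0] at hunit
  simp only [sum_range_succ, sum_range_zero, zero_add, Nat.cast_zero, Nat.cast_one, mul_zero,
    zero_mul, add_zero, one_mul, mul_one] at hsum hstep
  have h16 : IsUnit ((16 : ZMod (p ^ 3))) := by
    have := smooth_unit p hp h7 4 0 0
    norm_num at this
    exact this
  have hVp : (VV n p : ZMod (p ^ 3)) = -(vv p) * VV n 0 := by
    apply h16.mul_left_cancel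
    push_cast at hstep
    linear_combination -hstep
  rw [hVp] at hsum
  have hB : BB p (-3, -3, 3) (0, 0, -3) - vv p * BB p (-3 + 2, -3 + 2, 3 + 2) (2, 2, -3 + 2) = 0 := by
    apply hunit.mul_left_cancel
    linear_combination -hsum
  have b0 := BB2 p hp h7 (-3, -3, 3) (0, 0, -3) (-3) 27 9 (by norm_num) (by norm_num) (by norm_num)
    (by norm_num)
  have b1 := BB2 p hp h7 (-3 + 2, -3 + 2, 3 + 2) (2, 2, -3 + 2) 3 27 9 (by norm_num) (by norm_num)
    (by norm_num) (by norm_num)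
  have h2 : IsUnit ((2 : ZMod (p ^ 3))) := by
    have := smooth_unit p hp h7 1 0 0
    norm_num at this
    exact this
  apply h2.mul_left_cancel
  rw [mul_zero]
  apply rel1 _ _ _ _ (RR p) (Q4 p) (Q5 p) (P3 p)
  rw [← b0, ← b1, ← hw]
  linear_combination 2 * hB

/-- Second relation. -/
theorem REL2 (p : ℕ) (hp : p.Prime) (h7 : 7 ≤ p) (h3 : p % 3 = 1) (w : ZMod (p ^ 3))
    (hw : vv p = 1 + (p : ZMod (p ^ 3)) * w) :
    (p : ZMod (p ^ 3)) ^ 2 * (w ^ 2 * Phi p + 12 * w * DD p + 36 * RR p - 12 * Q4 p +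
      12 * Q5 p) = 0 := by
  obtain ⟨N, hN⟩ : ∃ N, p = 2 * N + 1 := by
    rcases hp.eq_two_or_odd' with h2 | ⟨N, hN⟩
    · omega
    · exact ⟨N, hN⟩
  set n := 2 * p + N with hn
  have hn1 : 2 * n + 1 = (2 * 2 + 1) * p := by omega
  have hn2 : 2 * (n : ℤ) + 1 = (5 : ℤ) * p := by
    have : ((2 * n + 1 : ℕ) : ℤ) = (((2 * 2 + 1) * p : ℕ) : ℤ) := by rw [hn1]
    push_cast at this
    linarith
  have hsum := block_sum p hp h7 (VV n) (-5, -5, 5) (0, 0, -5) (VV_hU n p 5 hn2) 2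
  rw [sum_extend (VV n) _ n ((2 + 1) * p) (by omega) (fun k hk => VV_zero n k hk),
    VV_sum n (by omega), Int.cast_zero] at hsum
  have hstep0 := block_step p hp h7 (VV n) (-5, -5, 5) (0, 0, -5) (VV_hU n p 5 hn2) 0
  have hstep1 := block_step p hp h7 (VV n) (-5, -5, 5) (0, 0, -5) (VV_hU n p 5 hn2) 1
  have hV0 : (VV n 0 : ZMod (p ^ 3)) = (((2 * n).choose n : ℕ) : ZMod (p ^ 3)) := by
    unfold VV
    simp
  have hunit := central_unit p hp h7 2 n (by norm_num) hn1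
  rw [← hV0] at hunit
  simp only [sum_range_succ, sum_range_zero, zero_add, Nat.cast_zero, Nat.cast_one, mul_zero,
    zero_mul, add_zero, one_mul, mul_one, Nat.reduceAdd, Nat.cast_ofNat] at hsum hstep0 hstep1
  have h48 : IsUnit ((48 : ZMod (p ^ 3))) := by
    have := smooth_unit p hp h7 4 1 0
    norm_num at this
    exact this
  have h64 : IsUnit ((64 : ZMod (p ^ 3))) := by
    have := smooth_unit p hp h7 6 0 0
    norm_num at this
    exact this
  have hVp : (VV n p : ZMod (p ^ 3)) = -2 * (vv p) * VV n 0 := by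
    apply h48.mul_left_cancel
    push_cast at hstep0
    linear_combination -hstep0
  have hV2p : (VV n (2 * p) : ZMod (p ^ 3)) = (vv p) ^ 2 * VV n 0 := by
    apply h64.mul_left_cancel
    push_cast at hstep1
    rw [hVp] at hstep1
    linear_combination -hstep1
  rw [hVp, hV2p] at hsum
  have hB : BB p (-5, -5, 5) (0, 0, -5) - 2 * vv p * BB p (-5 + 2, -5 + 2, 5 + 2) (2, 2, -5 + 2) +
      vv p ^ 2 * BB p (-5 + 2 * 2, -5 + 2 * 2, 5 + 2 * 2) (2 * 2, 2 * 2, -5 + 2 * 2) = 0 := by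
    apply hunit.mul_left_cancel
    linear_combination -hsum
  have b0 := BB2 p hp h7 (-5, -5, 5) (0, 0, -5) (-5) 75 25 (by norm_num) (by norm_num)
    (by norm_num) (by norm_num)
  have b1 := BB2 p hp h7 (-5 + 2, -5 + 2, 5 + 2) (2, 2, -5 + 2) 1 67 17 (by norm_num)
    (by norm_num) (by norm_num) (by norm_num)
  have b2 := BB2 p hp h7 (-5 + 2 * 2, -5 + 2 * 2, 5 + 2 * 2) (2 * 2, 2 * 2, -5 + 2 * 2) 7 83 33
    (by norm_num) (by norm_num) (by norm_num) (by norm_num)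
  have h2 : IsUnit ((2 : ZMod (p ^ 3))) := by
    have := smooth_unit p hp h7 1 0 0
    norm_num at this
    exact this
  apply h2.mul_left_cancel
  rw [mul_zero]
  apply rel2 _ _ _ _ (RR p) (Q4 p) (Q5 p) (P3 p)
  rw [← b0, ← b1, ← b2, ← hw]
  linear_combination 2 * hB

/-- The sum of the terms on the other side. -/
def Ps (p : ℕ) (i : ℤ) : ZMod (p ^ 3) := ∑ k ∈ range p, ps p i k

theorem WW_zero (n k : ℕ) (h : n / 3 < k) : WW n k = 0 := by
  unfold WW
  rw [if_neg (by omega)]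

/-- The cubic transformation in the ring. -/
theorem two_sides (p : ℕ) (hp : p.Prime) (h7 : 7 ≤ p) (m n : ℕ) (hm : m ≤ 2)
    (hn : 2 * n + 1 = (2 * m + 1) * p) :
    ∑ k ∈ range ((m + 1) * p), (UU n k : ZMod (p ^ 3)) =
      (((2 * n).choose n : ℕ) : ZMod (p ^ 3)) * 15 ^ n * Ps p (2 * m + 1) := by
  have hn2 : 2 * (n : ℤ) + 1 = (2 * m + 1 : ℤ) * p := by
    exact_mod_cast hn
  have hle : n + 1 ≤ (m + 1) * p := by nlinarith
  have hle3 : n / 3 + 1 ≤ p := by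
    have : (2 * m + 1) * p ≤ 5 * p := Nat.mul_le_mul_right p (by omega)
    omega
  rw [sum_extend (UU n) _ n _ hle (fun k hk => UU_zero n k hk), UU_sum n,
    ← sum_extend (WW n) _ (n / 3) p hle3 (fun k hk => WW_zero n k hk)]
  unfold Ps
  rw [mul_sum]
  refine sum_congr rfl fun k hk => ?_
  rw [W_term p hp h7 (WW n) (2 * m + 1) (fun k => WW_succ n k (2 * m + 1) p hn2) k
    (mem_range.mp hk)]
  congr 1
  unfold WW
  simp

theorem UU_at_zero (n : ℕ) (R : Type) [CommRing R] :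
    (UU n 0 : R) = (((2 * n).choose n : ℕ) : R) * 16 ^ n := by
  unfold UU
  simp

theorem unit15 (p : ℕ) (hp : p.Prime) (h7 : 7 ≤ p) : IsUnit (15 : ZMod (p ^ 3)) := by
  have := smooth_unit p hp h7 0 1 1
  norm_num at this
  exact this

theorem unit2 (p : ℕ) (hp : p.Prime) (h7 : 7 ≤ p) (a : ℕ) : IsUnit ((2 : ZMod (p ^ 3)) ^ a) := by
  have := smooth_unit p hp h7 a 0 0
  simpa using this

theorem S1 (p : ℕ) (hp : p.Prime) (h7 : 7 ≤ p) (N : ℕ) (hN : p = 2 * N + 1)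
    (κ : ZMod (p ^ 3)) (hκ : κ * 15 ^ N = 16 ^ N) :
    Ps p 1 = κ * BB p (-1, -1, 0) (0, 0, -2) := by
  have hn1 : 2 * N + 1 = (2 * 0 + 1) * p := by omega
  have hn2 : 2 * (N : ℤ) + 1 = (1 : ℤ) * p := by
    have : ((2 * N + 1 : ℕ) : ℤ) = (((2 * 0 + 1) * p : ℕ) : ℤ) := by rw [hn1]
    push_cast at this
    linarith
  have hsum := block_sum p hp h7 (UU N) (-1, -1, 0) (0, 0, -2) (UU_hU N p 1 (-2) hn2 (by norm_num)) 0
  have h2 := two_sides p hp h7 0 N (by norm_num) hn1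
  rw [h2] at hsum
  have hunit := central_unit p hp h7 0 N (by norm_num) hn1
  simp only [sum_range_succ, sum_range_zero, zero_add, Nat.cast_zero, mul_zero,
    zero_mul, add_zero, UU_at_zero] at hsum
  have h15 : IsUnit ((15 : ZMod (p ^ 3)) ^ N) := (unit15 p hp h7).pow N
  apply h15.mul_left_cancel
  apply hunit.mul_left_cancel
  linear_combination hsum - (((2 * N).choose N : ℕ) : ZMod (p ^ 3)) *
    BB p (-1, -1, 0) (0, 0, -2) * hκ

theorem S3 (p : ℕ) (hp : p.Prime) (h7 : 7 ≤ p) (N : ℕ) (hN : p = 2 * N + 1)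
    (κ : ZMod (p ^ 3)) (hκ : κ * 15 ^ N = 16 ^ N) :
    15 * Ps p 3 = κ ^ 3 * (16 * BB p (-3, -3, 0) (0, 0, -6) -
      vv p * BB p (-1, -1, 2) (2, 2, -4)) := by
  set n := p + N with hn
  have hn1 : 2 * n + 1 = (2 * 1 + 1) * p := by omega
  have hn2 : 2 * (n : ℤ) + 1 = (3 : ℤ) * p := by
    have : ((2 * n + 1 : ℕ) : ℤ) = (((2 * 1 + 1) * p : ℕ) : ℤ) := by rw [hn1]
    push_cast at this
    linarith
  have hsum := block_sum p hp h7 (UU n) (-3, -3, 0) (0, 0, -6) (UU_hU n p 3 (-6) hn2 (by norm_num)) 1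
  have h2 := two_sides p hp h7 1 n (by norm_num) hn1
  rw [h2] at hsum
  have hstep := block_step p hp h7 (UU n) (-3, -3, 0) (0, 0, -6) (UU_hU n p 3 (-6) hn2 (by norm_num)) 0
  have hunit := central_unit p hp h7 1 n (by norm_num) hn1
  simp only [sum_range_succ, sum_range_zero, zero_add, Nat.cast_zero, Nat.cast_one, mul_zero,
    zero_mul, add_zero, one_mul, mul_one, UU_at_zero] at hsum hstep
  have hUp : 16 * (UU n p : ZMod (p ^ 3)) = -(vv p) * ((((2 * n).choose n : ℕ) : ZMod (p ^ 3)) * 16 ^ n) := by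
    apply (unit2 p hp h7 2).mul_left_cancel
    push_cast at hstep
    linear_combination -hstep
  have e16 : (16 : ZMod (p ^ 3)) ^ n = 16 * (16 ^ N) ^ 3 := by
    rw [hn, ← pow_mul, ← pow_succ']
    congr 1
    omega
  have e15 : (15 : ZMod (p ^ 3)) ^ n = 15 * (15 ^ N) ^ 3 := by
    rw [hn, ← pow_mul, ← pow_succ']
    congr 1
    omega
  norm_num at hsum
  rw [e15] at hsum
  rw [e16, ← hκ] at hsum hUp
  have h15 : IsUnit (((15 : ZMod (p ^ 3)) ^ N) ^ 3) := ((unit15 p hp h7).pow N).pow 3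
  apply h15.mul_left_cancel
  apply hunit.mul_left_cancel
  apply (unit2 p hp h7 4).mul_left_cancel
  linear_combination 16 * hsum + BB p (-1, -1, 2) (2, 2, -4) * hUp

theorem S5 (p : ℕ) (hp : p.Prime) (h7 : 7 ≤ p) (N : ℕ) (hN : p = 2 * N + 1)
    (κ : ZMod (p ^ 3)) (hκ : κ * 15 ^ N = 16 ^ N) :
    225 * Ps p 5 = κ ^ 5 * (256 * BB p (-5, -5, 0) (0, 0, -10) -
      32 * vv p * BB p (-3, -3, 2) (2, 2, -8) + vv p ^ 2 * BB p (-1, -1, 4) (4, 4, -6)) := by
  set n := 2 * p + N with hn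
  have hn1 : 2 * n + 1 = (2 * 2 + 1) * p := by omega
  have hn2 : 2 * (n : ℤ) + 1 = (5 : ℤ) * p := by
    have : ((2 * n + 1 : ℕ) : ℤ) = (((2 * 2 + 1) * p : ℕ) : ℤ) := by rw [hn1]
    push_cast at this
    linarith
  have hsum := block_sum p hp h7 (UU n) (-5, -5, 0) (0, 0, -10) (UU_hU n p 5 (-10) hn2 (by norm_num)) 2
  have h2 := two_sides p hp h7 2 n (by norm_num) hn1
  rw [h2] at hsum
  have hstep0 := block_step p hp h7 (UU n) (-5, -5, 0) (0, 0, -10)
    (UU_hU n p 5 (-10) hn2 (by norm_num)) 0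
  have hstep1 := block_step p hp h7 (UU n) (-5, -5, 0) (0, 0, -10)
    (UU_hU n p 5 (-10) hn2 (by norm_num)) 1
  have hunit := central_unit p hp h7 2 n (by norm_num) hn1
  simp only [sum_range_succ, sum_range_zero, zero_add, Nat.cast_zero, Nat.cast_one, mul_zero,
    zero_mul, add_zero, one_mul, mul_one, UU_at_zero, Nat.reduceAdd, Nat.cast_ofNat]
    at hsum hstep0 hstep1
  have hUp : 8 * (UU n p : ZMod (p ^ 3)) = -(vv p) * ((((2 * n).choose n : ℕ) : ZMod (p ^ 3)) * 16 ^ n) := by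
    apply (unit2 p hp h7 4).mul_left_cancel
    push_cast at hstep0
    linear_combination -hstep0
  have hU2p : 256 * (UU n (2 * p) : ZMod (p ^ 3)) =
      (vv p) ^ 2 * ((((2 * n).choose n : ℕ) : ZMod (p ^ 3)) * 16 ^ n) := by
    have h3 : IsUnit ((3 : ZMod (p ^ 3))) := by
      have := smooth_unit p hp h7 0 1 0
      norm_num at this
      exact this
    apply h3.mul_left_cancel
    push_cast at hstep1
    linear_combination -2 * hstep1 - 3 * vv p * hUp
  have e16 : (16 : ZMod (p ^ 3)) ^ n = 256 * (16 ^ N) ^ 5 := by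
    rw [show (256 : ZMod (p ^ 3)) = 16 ^ 2 by norm_num, hn, ← pow_mul, ← pow_add]
    congr 1
    omega
  have e15 : (15 : ZMod (p ^ 3)) ^ n = 225 * (15 ^ N) ^ 5 := by
    rw [show (225 : ZMod (p ^ 3)) = 15 ^ 2 by norm_num, hn, ← pow_mul, ← pow_add]
    congr 1
    omega
  norm_num at hsum
  rw [e15] at hsum
  rw [e16, ← hκ] at hsum hUp hU2p
  have h15 : IsUnit (((15 : ZMod (p ^ 3)) ^ N) ^ 5) := ((unit15 p hp h7).pow N).pow 5
  apply h15.mul_left_cancel
  apply hunit.mul_left_cancel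
  apply (unit2 p hp h7 8).mul_left_cancel
  linear_combination 256 * hsum + 32 * BB p (-3, -3, 2) (2, 2, -8) * hUp +
    BB p (-1, -1, 4) (4, 4, -6) * hU2p

/-- The central computation. -/
theorem Ps_eq (p : ℕ) (hp : p.Prime) (h7 : 7 ≤ p) (h3 : p % 3 = 1) (ε θ : ZMod (p ^ 3))
    (hε : ε ^ 2 = 1)
    (hκ : ε * (1 + (p : ZMod (p ^ 3)) * θ) * 15 ^ ((p - 1) / 2) = 16 ^ ((p - 1) / 2)) :
    Ps p 0 = ε * Phi p := by
  obtain ⟨N, hN⟩ : ∃ N, p = 2 * N + 1 := by
    rcases hp.eq_two_or_odd' with h2 | ⟨N, hN⟩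
    · omega
    · exact ⟨N, hN⟩
  have hN2 : (p - 1) / 2 = N := by omega
  rw [hN2] at hκ
  obtain ⟨w, hw⟩ := vv_eq p hp h7
  have r1 := REL1 p hp h7 w hw
  have r2 := REL2 p hp h7 h3 w hw
  have s1 := S1 p hp h7 N hN _ hκ
  have s3 := S3 p hp h7 N hN _ hκ
  have s5 := S5 p hp h7 N hN _ hκ
  have hT : 8 * Ps p 0 = 15 * Ps p 1 - 10 * Ps p 3 + 3 * Ps p 5 := by
    unfold Ps
    rw [mul_sum, mul_sum, mul_sum, mul_sum, ← sum_sub_distrib, ← sum_add_distrib]
    exact sum_congr rfl fun k hk => ps_interp p hp h7 k (mem_range.mp hk)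
  have b1 := BB2 p hp h7 (-1, -1, 0) (0, 0, -2) (-2) 2 4 (by norm_num) (by norm_num) (by norm_num)
    (by norm_num)
  have b3 := BB2 p hp h7 (-3, -3, 0) (0, 0, -6) (-6) 18 36 (by norm_num) (by norm_num)
    (by norm_num) (by norm_num)
  have b3' := BB2 p hp h7 (-1, -1, 2) (2, 2, -4) 0 6 24 (by norm_num) (by norm_num)
    (by norm_num) (by norm_num)
  have b5 := BB2 p hp h7 (-5, -5, 0) (0, 0, -10) (-10) 50 100 (by norm_num) (by norm_num)
    (by norm_num) (by norm_num)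
  have b5' := BB2 p hp h7 (-3, -3, 2) (2, 2, -8) (-4) 22 72 (by norm_num) (by norm_num)
    (by norm_num) (by norm_num)
  have b5'' := BB2 p hp h7 (-1, -1, 4) (4, 4, -6) 2 18 68 (by norm_num) (by norm_num)
    (by norm_num) (by norm_num)
  have alg := alg_final (p : ZMod (p ^ 3)) θ w (Phi p) (DD p) (RR p) (Q4 p) (Q5 p) (P3 p) r1 r2
  rw [← b1, ← b3, ← b3', ← b5, ← b5', ← b5'', ← hw] at alg
  have h1200 : IsUnit ((1200 : ZMod (p ^ 3))) := by
    have := smooth_unit p hp h7 4 1 2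
    norm_num at this
    exact this
  apply h1200.mul_left_cancel
  have hε3 : ε ^ 3 = ε := by linear_combination ε * hε
  have hε5 : ε ^ 5 = ε := by linear_combination (ε ^ 3 + ε) * hε
  rw [mul_pow, hε3] at s3
  rw [mul_pow, hε5] at s5
  linear_combination 150 * hT + 2250 * s1 - 100 * s3 + 2 * s5 + ε * alg

end Pool.Agent.H97.Bin
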