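import Pool.Agent.H97.Bin.Saal

namespace Pool.Agent.H97.Bin

open Finset

/-! ### Recurrences in the index -/

theorem choose_right (n k : ℕ) (h : k < n) :
    (n.choose (k + 1) : ℤ) * (k + 1) = n.choose k * ((n : ℤ) - k) := by
  have := Nat.choose_succ_right_eq n k
  have h2 : ((n - k : ℕ) : ℤ) = (n : ℤ) - k := by push_cast [Nat.cast_sub h.le]; ring
  rw [← h2]
  exact_mod_cast this

theorem central_step (d : ℕ) :
    ((2 * (d + 1)).choose (d + 1) : ℤ) * (d + 1) = 2 * (2 * d + 1) * (2 * d).choose d := by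
  have := Nat.succ_mul_centralBinom_succ d
  rw [Nat.centralBinom_eq_two_mul_choose, Nat.centralBinom_eq_two_mul_choose] at this
  have h2 : ((d : ℤ) + 1) * ((2 * (d + 1)).choose (d + 1) : ℤ) =
      2 * (2 * d + 1) * (2 * d).choose d := by exact_mod_cast this
  linear_combination h2

theorem VV_succ (n k : ℕ) (i p : ℤ) (h : 2 * (n : ℤ) + 1 = i * p) :
    VV n (k + 1) * (4 * ((2 * k + 2) * (2 * k + 2) * (2 * k + 2 - i * p))) =
      VV n k * ((2 * k + 1 - i * p) * (2 * k + 1 - i * p) * (2 * k + 1 + i * p)) := by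
  rw [← h]
  rcases lt_trichotomy k n with hk | hk | hk
  · obtain ⟨d, rfl⟩ := Nat.exists_eq_add_of_le (show k + 1 ≤ n by omega)
    unfold VV
    rw [show k + 1 + d - (k + 1) = d by omega, show k + 1 + d - k = d + 1 by omega]
    have h1 := central_step d
    have h2 := choose_right (k + 1 + d) k (by omega)
    have h3 := Nat.add_one_mul_choose_eq (k + 1 + d + k) k
    have h3' : ((k : ℤ) + 1 + d + k + 1) * ((k + 1 + d + k).choose k : ℤ) =
        ((k + 1 + d + (k + 1)).choose (k + 1) : ℤ) * (k + 1) := by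
      rw [show k + 1 + d + (k + 1) = k + 1 + d + k + 1 by ring]
      exact_mod_cast h3
    push_cast at h2 ⊢
    rw [pow_succ]
    generalize ((2 * (d + 1)).choose (d + 1) : ℤ) = A at *
    generalize ((2 * d).choose d : ℤ) = B at *
    generalize ((k + 1 + d).choose (k + 1) : ℤ) = C at *
    generalize ((k + 1 + d).choose k : ℤ) = D at *
    generalize ((k + 1 + d + k).choose k : ℤ) = E at *
    generalize ((k + 1 + d + (k + 1)).choose (k + 1) : ℤ) = G at *
    generalize ((-1 : ℤ) ^ k) = z at *
    have e2 : C * ((k : ℤ) + 1) = D * (d + 1) := by linear_combination h2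
    linear_combination (16 * z * (2 * d + 1) * B * ((k : ℤ) + 1) * G) * e2 -
      (16 * z * (2 * d + 1) * B * D * ((d : ℤ) + 1)) * h3' -
      (8 * z * (d + 1) * D * ((k : ℤ) + 1 + d + k + 1) * E) * h1
  · subst hk
    have h1 : VV k (k + 1) = 0 := by
      unfold VV
      rw [Nat.choose_eq_zero_of_lt (show k < k + 1 by omega)]
      simp
    rw [h1]
    ring
  · have h1 : VV n (k + 1) = 0 := by
      unfold VV
      rw [Nat.choose_eq_zero_of_lt (show n < k + 1 by omega)]
      simp
    have h2 : VV n k = 0 := by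
      unfold VV
      rw [Nat.choose_eq_zero_of_lt (show n < k by omega)]
      simp
    rw [h1, h2]
    ring

theorem UU_succ (n k : ℕ) (i p : ℤ) (h : 2 * (n : ℤ) + 1 = i * p) :
    UU n (k + 1) * (4 * ((2 * k + 2) * (2 * k + 2) * (2 * k + 2 - 2 * i * p))) =
      UU n k * ((2 * k + 1 - i * p) * (2 * k + 1 - i * p) * (2 * k + 1)) := by
  rw [show 2 * i * p = 2 * (i * p) by ring, ← h]
  rcases lt_trichotomy k n with hk | hk | hk
  · obtain ⟨d, rfl⟩ := Nat.exists_eq_add_of_le (show k + 1 ≤ n by omega)
    unfold UU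
    rw [show k + 1 + d - (k + 1) = d by omega, show k + 1 + d - k = d + 1 by omega,
      show 2 * (k + 1 + d) - (k + 1) = k + 1 + d + d by omega,
      show 2 * (k + 1 + d) - k = k + 1 + d + d + 1 by omega]
    have h1 := central_step k
    have h2 := choose_right (k + 1 + d) k (by omega)
    have h3 := Nat.choose_mul_succ_eq (k + 1 + d + d) (k + 1 + d)
    rw [show k + 1 + d + d + 1 - (k + 1 + d) = d + 1 by omega] at h3
    have h3' : ((k + 1 + d + d).choose (k + 1 + d) : ℤ) * ((k : ℤ) + 1 + d + d + 1) =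
        ((k + 1 + d + d + 1).choose (k + 1 + d) : ℤ) * (d + 1) := by
      exact_mod_cast h3
    push_cast at h2 ⊢
    rw [pow_succ, pow_succ]
    generalize ((2 * (k + 1)).choose (k + 1) : ℤ) = A at *
    generalize ((2 * k).choose k : ℤ) = B at *
    generalize ((k + 1 + d).choose (k + 1) : ℤ) = C at *
    generalize ((k + 1 + d).choose k : ℤ) = D at *
    generalize ((k + 1 + d + d).choose (k + 1 + d) : ℤ) = E at *
    generalize ((k + 1 + d + d + 1).choose (k + 1 + d) : ℤ) = G at *
    generalize ((-1 : ℤ) ^ k) = z at *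
    generalize ((16 : ℤ) ^ d) = w at *
    have e2 : C * ((k : ℤ) + 1) = D * (d + 1) := by linear_combination h2
    linear_combination (32 * z * w * C * ((k : ℤ) + 1) * E * ((k : ℤ) + 1 + d + d + 1)) * h1 +
      (64 * z * w * (2 * (k : ℤ) + 1) * B * E * ((k : ℤ) + 1 + d + d + 1)) * e2 +
      (64 * z * w * (2 * (k : ℤ) + 1) * B * D * (d + 1)) * h3'
  · subst hk
    have h1 : UU k (k + 1) = 0 := by
      unfold UU
      rw [Nat.choose_eq_zero_of_lt (show k < k + 1 by omega)]
      simp
    rw [h1]
    ring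
  · have h1 : UU n (k + 1) = 0 := by
      unfold UU
      rw [Nat.choose_eq_zero_of_lt (show n < k + 1 by omega)]
      simp
    have h2 : UU n k = 0 := by
      unfold UU
      rw [Nat.choose_eq_zero_of_lt (show n < k by omega)]
      simp
    rw [h1, h2]
    ring

/-- Binomial product in factorial form. -/
theorem WW_fact (k e : ℕ) :
    (((2 * (2 * k + e)).choose (2 * k + e) * (2 * k + e).choose k * (k + e).choose k : ℕ) : ℤ) *
      ((2 * k + e).factorial * k.factorial * k.factorial * e.factorial : ℕ) =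
      ((2 * (2 * k + e)).factorial : ℕ) := by
  have h1 := Nat.add_choose_mul_factorial_mul_factorial (2 * k + e) (2 * k + e)
  have h2 := Nat.add_choose_mul_factorial_mul_factorial (k + e) k
  have h3 := Nat.add_choose_mul_factorial_mul_factorial e k
  rw [show 2 * k + e + (2 * k + e) = 2 * (2 * k + e) by ring] at h1
  rw [show k + e + k = 2 * k + e by ring] at h2
  rw [show e + k = k + e by ring] at h3
  have p1 := Nat.factorial_pos (2 * k + e)
  have p2 := Nat.factorial_pos (k + e)
  have key : (2 * (2 * k + e)).choose (2 * k + e) * (2 * k + e).choose k * (k + e).choose k *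
      ((2 * k + e).factorial * k.factorial * k.factorial * e.factorial) =
      (2 * (2 * k + e)).factorial := by
    have : ((2 * k + e).factorial * (k + e).factorial) *
        ((2 * (2 * k + e)).choose (2 * k + e) * (2 * k + e).choose k * (k + e).choose k *
        ((2 * k + e).factorial * k.factorial * k.factorial * e.factorial)) =
        ((2 * k + e).factorial * (k + e).factorial) * (2 * (2 * k + e)).factorial := by
      calc _ = ((2 * (2 * k + e)).choose (2 * k + e) * (2 * k + e).factorial *
            (2 * k + e).factorial) * ((2 * k + e).choose k * (k + e).factorial *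
            k.factorial) * ((k + e).choose k * e.factorial * k.factorial) := by ring
        _ = _ := by rw [h1, h2, h3]; ring
    exact Nat.eq_of_mul_eq_mul_left (by positivity) this
  exact_mod_cast key

theorem WW_succ (n k : ℕ) (i p : ℤ) (h : 2 * (n : ℤ) + 1 = i * p) :
    WW n (k + 1) * (3375 * ((k + 1) * (k + 1) * (2 * k + 2 - i * p))) =
      WW n k * ((6 * k + 1 - i * p) * (6 * k + 3 - i * p) * (6 * k + 5 - i * p)) := by
  rw [← h]
  by_cases h3 : 3 * k + 3 ≤ n
  · obtain ⟨e, rfl⟩ := Nat.exists_eq_add_of_le h3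
    unfold WW
    rw [if_pos (by omega), if_pos (by omega)]
    rw [show 3 * k + 3 + e - (k + 1) = 2 * (k + 1) + e by omega,
      show 3 * k + 3 + e - 2 * (k + 1) = k + 1 + e by omega,
      show 3 * k + 3 + e - 3 * (k + 1) = e by omega,
      show 3 * k + 3 + e - k = 2 * k + (e + 3) by omega,
      show 3 * k + 3 + e - 2 * k = k + (e + 3) by omega,
      show 3 * k + 3 + e - 3 * k = e + 3 by omega]
    have f1 := WW_fact (k + 1) e
    have f2 := WW_fact k (e + 3)
    set T1 : ℤ := (((2 * (2 * (k + 1) + e)).choose (2 * (k + 1) + e) *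
      (2 * (k + 1) + e).choose (k + 1) * (k + 1 + e).choose (k + 1) : ℕ) : ℤ) with hT1
    set T2 : ℤ := (((2 * (2 * k + (e + 3))).choose (2 * k + (e + 3)) *
      (2 * k + (e + 3)).choose k * (k + (e + 3)).choose k : ℕ) : ℤ) with hT2
    clear_value T1 T2
    rw [show 2 * k + (e + 3) = 2 * (k + 1) + e + 1 by ring,
      show 2 * (2 * (k + 1) + e + 1) = 2 * (2 * (k + 1) + e) + 1 + 1 by ring,
      Nat.factorial_succ (2 * (2 * (k + 1) + e) + 1), Nat.factorial_succ (2 * (2 * (k + 1) + e)),
      Nat.factorial_succ (2 * (k + 1) + e), Nat.factorial_succ (e + 2),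
      Nat.factorial_succ (e + 1), Nat.factorial_succ e] at f2
    rw [Nat.factorial_succ k] at f1
    set F : ℕ := (2 * (k + 1) + e).factorial * k.factorial * k.factorial * e.factorial with hF
    have hFpos : (F : ℤ) ≠ 0 := by
      have : 0 < F := by rw [hF]; positivity
      exact_mod_cast this.ne'
    have f3 : T2 * ((2 * (k + 1) + e + 1) * ((e + 3) * ((e + 2) * (e + 1))) * (F : ℤ)) =
        (2 * (2 * (k + 1) + e) + 1 + 1) * ((2 * (2 * (k + 1) + e) + 1) *
          ((2 * (2 * (k + 1) + e)).factorial : ℕ)) := by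
      rw [hF]
      push_cast at f2 ⊢
      linear_combination f2
    have f4 : T1 * ((k + 1) * (k + 1) * (F : ℤ)) =
          ((2 * (2 * (k + 1) + e)).factorial : ℕ) := by
      rw [hF]
      push_cast at f1 ⊢
      linear_combination f1
    rw [← f4] at f3
    have hs : ((2 * (k + 1) + e + 1 : ℕ) : ℤ) ≠ 0 := by positivity
    have f5 : T2 * ((e + 3) * ((e + 2) * (e + 1))) =
        2 * ((2 * (2 * (k + 1) + e) + 1) * (T1 * ((k + 1) * (k + 1)))) := by
      apply mul_right_cancel₀ (mul_ne_zero hFpos hs)
      push_cast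
      linear_combination f3
    rw [pow_succ, show (15 : ℤ) ^ (e + 3) = 15 ^ e * 3375 by rw [pow_add]; norm_num]
    push_cast
    linear_combination ((8 : ℤ) * 16 ^ k * 15 ^ e * 3375) * f5
  · have h1 : WW n (k + 1) = 0 := by
      unfold WW
      rw [if_neg (by omega)]
    rw [h1, zero_mul]
    by_cases h4 : 3 * k ≤ n
    · have h5 : n = 3 * k ∨ n = 3 * k + 1 ∨ n = 3 * k + 2 := by omega
      rcases h5 with h5 | h5 | h5
      · rw [h5]; push_cast; ring
      · rw [h5]; push_cast; ring
      · rw [h5]; push_cast; ring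
    · unfold WW
      rw [if_neg h4, zero_mul]

end Pool.Agent.H97.Bin
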