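import Mathlib

namespace Pool.Agent.H97.Bin

open Finset

/-- The summand of the Saalschuetz sum. -/
def tS (m q j : ℕ) : ℤ :=
  ((2 * (m + q - j)).choose (m + q - j) * (m + q - j).choose j * (m + q - 2 * j).choose m *
    m.choose j : ℕ)

/-- Factorial form. -/
theorem tS_fact (j a b : ℕ) :
    tS (j + a) (2 * j + b) j * ((2 * j + a + b).factorial * j.factorial * j.factorial *
      a.factorial * b.factorial : ℕ) = ((2 * (2 * j + a + b)).factorial : ℕ) := by
  unfold tS
  have e1 : j + a + (2 * j + b) - j = 2 * j + a + b := by omega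
  have e2 : j + a + (2 * j + b) - 2 * j = j + a + b := by omega
  rw [e1, e2]
  have h1 := Nat.add_choose_mul_factorial_mul_factorial (2 * j + a + b) (2 * j + a + b)
  have h2 := Nat.add_choose_mul_factorial_mul_factorial (j + a + b) j
  have h3 := Nat.add_choose_mul_factorial_mul_factorial b (j + a)
  have h4 := Nat.add_choose_mul_factorial_mul_factorial a j
  rw [show 2 * j + a + b + (2 * j + a + b) = 2 * (2 * j + a + b) by ring] at h1
  rw [show j + a + b + j = 2 * j + a + b by ring] at h2
  rw [show b + (j + a) = j + a + b by ring] at h3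
  rw [show a + j = j + a by ring] at h4
  have p1 := Nat.factorial_pos (2 * j + a + b)
  have p2 := Nat.factorial_pos (j + a + b)
  have p3 := Nat.factorial_pos (j + a)
  have key : (2 * (2 * j + a + b)).choose (2 * j + a + b) * (2 * j + a + b).choose j *
      (j + a + b).choose (j + a) * (j + a).choose j * ((2 * j + a + b).factorial * j.factorial *
      j.factorial * a.factorial * b.factorial) = (2 * (2 * j + a + b)).factorial := by
    have : ((2 * j + a + b).factorial * (j + a + b).factorial * (j + a).factorial) *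
      ((2 * (2 * j + a + b)).choose (2 * j + a + b) * (2 * j + a + b).choose j *
      (j + a + b).choose (j + a) * (j + a).choose j * ((2 * j + a + b).factorial * j.factorial *
      j.factorial * a.factorial * b.factorial)) =
      ((2 * j + a + b).factorial * (j + a + b).factorial * (j + a).factorial) *
        (2 * (2 * j + a + b)).factorial := by
      calc _ = ((2 * (2 * j + a + b)).choose (2 * j + a + b) * (2 * j + a + b).factorial *
            (2 * j + a + b).factorial) * ((2 * j + a + b).choose j * (j + a + b).factorial *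
            j.factorial) * ((j + a + b).choose (j + a) * b.factorial * (j + a).factorial) *
            ((j + a).choose j * a.factorial * j.factorial) := by ring
        _ = _ := by rw [h1, h2, h3, h4]; ring
    exact Nat.eq_of_mul_eq_mul_left (by positivity) this
  exact_mod_cast key

theorem tS_zero_left (m q j : ℕ) (h : m < j) : tS m q j = 0 := by
  unfold tS
  rw [Nat.choose_eq_zero_of_lt h]
  simp

theorem tS_zero_right (m q j : ℕ) (h : q < 2 * j) (h2 : j ≤ m) : tS m q j = 0 := by
  unfold tS
  rw [Nat.choose_eq_zero_of_lt (show m + q - 2 * j < m by omega)]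
  simp

/-- Step in `m`. -/
theorem tS_stepA (m q j : ℕ) (hj : j ≤ m + 1) :
    tS (m + 1) q j * ((m : ℤ) + 1 - j) = 2 * (2 * m + 2 * q - 2 * j + 1) * tS m q j := by
  by_cases h1 : j ≤ m
  · by_cases h2 : 2 * j ≤ q
    · obtain ⟨a, rfl⟩ := Nat.exists_eq_add_of_le h1
      obtain ⟨b, rfl⟩ := Nat.exists_eq_add_of_le h2
      have f1 := tS_fact j a b
      have f2 := tS_fact j (a + 1) b
      rw [show j + (a + 1) = j + a + 1 by ring] at f2
      rw [show 2 * j + (a + 1) + b = 2 * j + a + b + 1 by ring] at f2
      rw [show 2 * (2 * j + a + b + 1) = 2 * (2 * j + a + b) + 1 + 1 by ring,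
        Nat.factorial_succ (2 * (2 * j + a + b) + 1), Nat.factorial_succ (2 * (2 * j + a + b)),
        Nat.factorial_succ (2 * j + a + b), Nat.factorial_succ a] at f2
      set F : ℕ := (2 * j + a + b).factorial * j.factorial * j.factorial *
        a.factorial * b.factorial with hF
      have hFpos : (F : ℤ) ≠ 0 := by
        have : 0 < F := by rw [hF]; positivity
        exact_mod_cast this.ne'
      have f3 : tS (j + a + 1) (2 * j + b) j * ((2 * j + a + b + 1) * (a + 1) * (F : ℤ)) =
          (2 * (2 * j + a + b) + 1 + 1) * ((2 * (2 * j + a + b) + 1) *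
            ((2 * (2 * j + a + b)).factorial : ℕ)) := by
        rw [hF]
        push_cast at f2 ⊢
        linear_combination f2
      rw [← f1] at f3
      have hs : ((2 * j + a + b + 1 : ℕ) : ℤ) ≠ 0 := by positivity
      apply mul_right_cancel₀ (mul_ne_zero hFpos hs)
      push_cast
      linear_combination f3
    · rw [tS_zero_right _ _ _ (by omega) (by omega), tS_zero_right _ _ _ (by omega) h1]
      simp
  · have : j = m + 1 := by omega
    subst this
    rw [tS_zero_left m q (m + 1) (by omega)]
    push_cast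
    ring

/-- Step in `j`. -/
theorem tS_stepB (m q j : ℕ) (hj : j ≤ m) :
    tS m q (j + 1) * (((j : ℤ) + 1) ^ 2 * (2 * (2 * m + 2 * q - 2 * j - 1))) =
      (((m : ℤ) - j) * (q - 2 * j) * (q - 2 * j - 1)) * tS m q j := by
  by_cases h0 : j = m
  · subst h0
    rw [tS_zero_left j q (j + 1) (by omega)]
    ring
  · by_cases h2 : 2 * j + 2 ≤ q
    · obtain ⟨a, rfl⟩ := Nat.exists_eq_add_of_le (show j + 1 ≤ m by omega)
      obtain ⟨b, rfl⟩ := Nat.exists_eq_add_of_le h2
      have f1 := tS_fact (j + 1) a b
      have f2 := tS_fact j (a + 1) (b + 2)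
      rw [show j + (a + 1) = j + 1 + a by ring, show 2 * j + (b + 2) = 2 * j + 2 + b by ring,
        show 2 * j + (a + 1) + (b + 2) = 2 * j + 2 + a + b + 1 by ring] at f2
      rw [show 2 * (j + 1) + b = 2 * j + 2 + b by ring,
        show 2 * (j + 1) + a + b = 2 * j + 2 + a + b by ring] at f1
      rw [show 2 * (2 * j + 2 + a + b + 1) = 2 * (2 * j + 2 + a + b) + 1 + 1 by ring,
        Nat.factorial_succ (2 * (2 * j + 2 + a + b) + 1), Nat.factorial_succ
          (2 * (2 * j + 2 + a + b)),
        Nat.factorial_succ (2 * j + 2 + a + b), Nat.factorial_succ a,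
        Nat.factorial_succ (b + 1), Nat.factorial_succ b] at f2
      rw [Nat.factorial_succ j] at f1
      set F : ℕ := (2 * j + 2 + a + b).factorial * j.factorial * j.factorial *
        a.factorial * b.factorial with hF
      have hFpos : (F : ℤ) ≠ 0 := by
        have : 0 < F := by rw [hF]; positivity
        exact_mod_cast this.ne'
      have f3 : tS (j + 1 + a) (2 * j + 2 + b) j * ((2 * j + 2 + a + b + 1) * (a + 1) *
          ((b + 1 + 1) * (b + 1)) * (F : ℤ)) =
          (2 * (2 * j + 2 + a + b) + 1 + 1) * ((2 * (2 * j + 2 + a + b) + 1) *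
            ((2 * (2 * j + 2 + a + b)).factorial : ℕ)) := by
        rw [hF]
        push_cast at f2 ⊢
        linear_combination f2
      have f4 : tS (j + 1 + a) (2 * j + 2 + b) (j + 1) * ((j + 1) * (j + 1) * (F : ℤ)) =
            ((2 * (2 * j + 2 + a + b)).factorial : ℕ) := by
        rw [hF]
        push_cast at f1 ⊢
        linear_combination f1
      rw [← f4] at f3
      have hs : ((2 * j + 2 + a + b + 1 : ℕ) : ℤ) ≠ 0 := by positivity
      apply mul_right_cancel₀ (mul_ne_zero hFpos hs)
      push_cast
      linear_combination -f3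
    · by_cases h3 : q < 2 * j
      · rw [tS_zero_right _ _ _ (by omega) (by omega), tS_zero_right _ _ _ h3 hj]
        simp
      · rw [tS_zero_right _ _ (j + 1) (by omega) (by omega)]
        have h4 : ((q : ℤ) - 2 * j) * (q - 2 * j - 1) = 0 := by
          have : q = 2 * j ∨ q = 2 * j + 1 := by omega
          rcases this with h | h
          · rw [h]; push_cast; ring
          · rw [h]; push_cast; ring
        linear_combination (-(((m : ℤ) - j) * tS m q j)) * h4

/-- The certificate. -/
theorem tS_wz (m q j : ℕ) (hj : j ≤ m + 1) :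
    ((m : ℤ) + 1) ^ 2 * tS (m + 1) q j - (2 * m + q + 1) * (2 * m + q + 2) * tS m q j =
      (j : ℤ) ^ 2 * tS (m + 1) q j - ((j + 1 : ℕ) : ℤ) ^ 2 * tS (m + 1) q (j + 1) := by
  have A := tS_stepA m q j hj
  have B := tS_stepB (m + 1) q j hj
  push_cast at B ⊢
  have hne : (2 * (2 * (m : ℤ) + 2 * q - 2 * j + 1)) ≠ 0 := by
    intro h
    have : (2 : ℤ) * (m + q - j) + 1 = 0 := by linarith
    omega
  apply mul_left_cancel₀ hne
  linear_combination (2 * (m : ℤ) + q + 1) * (2 * m + q + 2) * A + B

/-- A case of the Pfaff-Saalschuetz summation. -/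
theorem saal (m q : ℕ) :
    ∑ j ∈ range (m + 1), tS m q j =
      (((2 * q).choose q * (m + q).choose m * (2 * m + q).choose m : ℕ) : ℤ) := by
  induction m with
  | zero => simp [tS]
  | succ m ih =>
    have h1 : ∑ j ∈ range (m + 1 + 1), (((m : ℤ) + 1) ^ 2 * tS (m + 1) q j -
        (2 * m + q + 1) * (2 * m + q + 2) * tS m q j) = 0 := by
      have : ∑ j ∈ range (m + 1 + 1), (((m : ℤ) + 1) ^ 2 * tS (m + 1) q j -
        (2 * m + q + 1) * (2 * m + q + 2) * tS m q j) =
        ∑ j ∈ range (m + 1 + 1), ((j : ℤ) ^ 2 * tS (m + 1) q j -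
          ((j + 1 : ℕ) : ℤ) ^ 2 * tS (m + 1) q (j + 1)) := by
        apply sum_congr rfl
        intro j hj
        exact tS_wz m q j (by rw [mem_range] at hj; omega)
      rw [this, sum_range_sub' (fun j : ℕ => (j : ℤ) ^ 2 * tS (m + 1) q j)]
      rw [tS_zero_left (m + 1) q (m + 1 + 1) (by omega)]
      simp
    rw [sum_sub_distrib, ← mul_sum, ← mul_sum, sum_range_succ (fun j => tS m q j) (m + 1), ih,
      tS_zero_left m q (m + 1) (by omega)] at h1
    have g1 := Nat.add_choose_mul_factorial_mul_factorial q m
    have g2 := Nat.add_choose_mul_factorial_mul_factorial (m + q) m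
    have g3 := Nat.add_choose_mul_factorial_mul_factorial q (m + 1)
    have g4 := Nat.add_choose_mul_factorial_mul_factorial (m + 1 + q) (m + 1)
    rw [show q + m = m + q by ring] at g1
    rw [show m + q + m = 2 * m + q by ring] at g2
    rw [show q + (m + 1) = m + 1 + q by ring] at g3
    rw [show m + 1 + q + (m + 1) = 2 * m + q + 1 + 1 by ring] at g4
    rw [show 2 * (m + 1) + q = 2 * m + q + 1 + 1 by ring]
    rw [Nat.factorial_succ (2 * m + q + 1), Nat.factorial_succ (2 * m + q), ← g2] at g4
    have gA : ((m + 1 + q).choose (m + 1) * (2 * m + q + 1 + 1).choose (m + 1)) *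
        ((m + 1) * (m + 1)) =
        ((m + q).choose m * (2 * m + q).choose m) * ((2 * m + q + 1) * (2 * m + q + 2)) := by
      have p1 := Nat.factorial_pos (m + 1 + q)
      have p2 := Nat.factorial_pos (m + q)
      have p3 := Nat.factorial_pos m
      have p4 := Nat.factorial_pos q
      have : (q.factorial * m.factorial * (m.factorial * (m + 1 + q).factorial *
          (m + q).factorial)) *
        (((m + 1 + q).choose (m + 1) * (2 * m + q + 1 + 1).choose (m + 1)) *
        ((m + 1) * (m + 1))) = (q.factorial * m.factorial * (m.factorial *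
          (m + 1 + q).factorial * (m + q).factorial)) *
        (((m + q).choose m * (2 * m + q).choose m) * ((2 * m + q + 1) * (2 * m + q + 2))) := by
        calc _ = ((m + 1 + q).choose (m + 1) * q.factorial * ((m + 1) * m.factorial)) *
              ((2 * m + q + 1 + 1).choose (m + 1) * (m + 1 + q).factorial *
                ((m + 1) * m.factorial)) * (m + q).factorial := by ring
          _ = (m + 1 + q).factorial * ((2 * m + q + 1 + 1) * ((2 * m + q + 1) *
                ((2 * m + q).choose m * (m + q).factorial * m.factorial))) *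
                ((m + q).choose m * q.factorial * m.factorial) := by
              rw [g1, ← g4, ← Nat.factorial_succ m, g3]
          _ = _ := by ring
      exact Nat.eq_of_mul_eq_mul_left (by positivity) this
    have gB : (((m + 1 + q).choose (m + 1) * (2 * m + q + 1 + 1).choose (m + 1) : ℕ) : ℤ) *
        ((m + 1) * (m + 1)) =
        (((m + q).choose m * (2 * m + q).choose m : ℕ) : ℤ) *
          ((2 * m + q + 1) * (2 * m + q + 2)) := by
      exact_mod_cast gA
    have hne : ((m : ℤ) + 1) ^ 2 ≠ 0 := by positivity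
    apply mul_left_cancel₀ hne
    push_cast at h1 gB ⊢
    linear_combination h1 - (((2 * q).choose q : ℕ) : ℤ) * gB

/-- The cubic transformation in polynomial form. -/
theorem poly_id (n : ℕ) (x : ℤ) :
    ∑ m ∈ range (n + 1), x ^ m *
        (((2 * (n - m)).choose (n - m) * n.choose m * (n + m).choose m : ℕ) : ℤ) =
      ∑ j ∈ range (n / 3 + 1),
        (((2 * (n - j)).choose (n - j) * (n - j).choose j * (n - 2 * j).choose j : ℕ) : ℤ) *
          (x ^ j * (1 + x) ^ (n - 3 * j)) := by
  have h1 : ∀ m ∈ range (n + 1), x ^ m *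
        (((2 * (n - m)).choose (n - m) * n.choose m * (n + m).choose m : ℕ) : ℤ) =
        ∑ j ∈ range (n + 1), x ^ m * tS m (n - m) j := by
    intro m hm
    rw [mem_range] at hm
    have hs := saal m (n - m)
    rw [show m + (n - m) = n by omega, show 2 * m + (n - m) = n + m by omega] at hs
    rw [← hs, ← mul_sum]
    congr 1
    apply sum_subset (range_subset_range.mpr (by omega))
    intro j _ hj
    rw [mem_range] at hj
    exact tS_zero_left _ _ _ (by omega)
  rw [sum_congr rfl h1, sum_comm]
  have h2 : ∀ j ∈ range (n + 1), j ∉ range (n / 3 + 1) →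
      ∑ m ∈ range (n + 1), x ^ m * tS m (n - m) j = 0 := by
    intro j hj1 hj2
    rw [mem_range] at hj1 hj2
    apply sum_eq_zero
    intro m hm
    rw [mem_range] at hm
    have : tS m (n - m) j = 0 := by
      unfold tS
      rw [show m + (n - m) = n by omega]
      by_cases hmj : m < j
      · rw [Nat.choose_eq_zero_of_lt hmj]; simp
      · rw [Nat.choose_eq_zero_of_lt (show n - 2 * j < m by omega)]; simp
    rw [this, mul_zero]
  rw [← sum_subset (range_subset_range.mpr (by omega)) h2]
  apply sum_congr rfl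
  intro j hj
  rw [mem_range] at hj
  have h3 : 3 * j ≤ n := by omega
  obtain ⟨e, rfl⟩ := Nat.exists_eq_add_of_le h3
  rw [show 3 * j + e + 1 = j + (2 * j + e + 1) by ring, sum_range_add]
  have hz : ∑ m ∈ range j, x ^ m * tS m (3 * j + e - m) j = 0 := by
    apply sum_eq_zero
    intro m hm
    rw [mem_range] at hm
    rw [tS_zero_left _ _ _ hm, mul_zero]
  rw [hz, zero_add]
  have h4 : ∀ i ∈ range (2 * j + e + 1), x ^ (j + i) * tS (j + i) (3 * j + e - (j + i)) j =
      (((2 * (3 * j + e - j)).choose (3 * j + e - j) * (3 * j + e - j).choose j *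
        (3 * j + e - 2 * j).choose j : ℕ) : ℤ) * x ^ j * (x ^ i * (e.choose i : ℕ)) := by
    intro i hi
    rw [mem_range] at hi
    unfold tS
    rw [show j + i + (3 * j + e - (j + i)) = 3 * j + e by omega]
    have := Nat.choose_mul (n := 3 * j + e - 2 * j) (k := j + i) (s := j) (by omega)
    rw [show 3 * j + e - 2 * j - j = e by omega, show j + i - j = i by omega] at this
    have this' : ((3 * j + e - 2 * j).choose (j + i) : ℤ) * ((j + i).choose j : ℤ) =
      ((3 * j + e - 2 * j).choose j : ℤ) * (e.choose i : ℤ) := by exact_mod_cast this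
    push_cast
    rw [pow_add]
    linear_combination x ^ j * x ^ i * ((2 * (3 * j + e - j)).choose (3 * j + e - j) : ℤ) *
      ((3 * j + e - j).choose j : ℤ) * this'
  rw [sum_congr rfl h4, ← mul_sum, mul_assoc]
  congr 2
  rw [show 3 * j + e - 3 * j = e by omega, add_comm (1 : ℤ) x, add_pow]
  simp only [one_pow, mul_one]
  symm
  apply sum_subset (range_subset_range.mpr (by omega))
  intro i _ hi
  rw [mem_range] at hi
  rw [Nat.choose_eq_zero_of_lt (by omega)]
  simp

/-- First family: the alternating sum vanishes when `3 ∤ n`. -/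
def VV (n k : ℕ) : ℤ :=
  (-1) ^ k * (((2 * (n - k)).choose (n - k) * n.choose k * (n + k).choose k : ℕ) : ℤ)

theorem VV_sum (n : ℕ) (h : n % 3 ≠ 0) : ∑ k ∈ range (n + 1), VV n k = 0 := by
  unfold VV
  rw [poly_id n (-1)]
  apply sum_eq_zero
  intro j hj
  rw [mem_range] at hj
  have : n - 3 * j ≠ 0 := by omega
  rw [show (1 : ℤ) + -1 = 0 by norm_num, zero_pow this]
  simp

/-- Second family. -/
def UU (n k : ℕ) : ℤ :=
  (-1) ^ k * (((2 * k).choose k * n.choose k * (2 * n - k).choose n : ℕ) : ℤ) * 16 ^ (n - k)

def WW (n k : ℕ) : ℤ :=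
  if 3 * k ≤ n then
    (((2 * (n - k)).choose (n - k) * (n - k).choose k * (n - 2 * k).choose k : ℕ) : ℤ) *
      (16 ^ k * 15 ^ (n - 3 * k))
  else 0

theorem UU_sum (n : ℕ) :
    ∑ k ∈ range (n + 1), UU n k = ∑ k ∈ range (n / 3 + 1), WW n k := by
  rw [← sum_flip]
  have h1 : ∀ m ∈ range (n + 1), UU n (n - m) = (-1) ^ n * ((-16) ^ m *
      (((2 * (n - m)).choose (n - m) * n.choose m * (n + m).choose m : ℕ) : ℤ)) := by
    intro m hm
    rw [mem_range] at hm
    obtain ⟨d, rfl⟩ := Nat.exists_eq_add_of_le (show m ≤ n by omega)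
    unfold UU
    rw [show m + d - m = d by omega, show 2 * (m + d) - d = m + d + m by omega,
      show m + d - d = m by omega]
    rw [Nat.choose_symm_add (a := m) (b := d), Nat.choose_symm_add (a := m + d) (b := m)]
    have h2 : (-16 : ℤ) ^ m = (-1) ^ m * 16 ^ m := by
      rw [← mul_pow]; norm_num
    rw [h2, pow_add]
    have h3 : ((-1 : ℤ) ^ m) * (-1) ^ m = 1 := by
      rw [← mul_pow]; norm_num
    linear_combination (-(-1 : ℤ) ^ d * 16 ^ m *
      (((2 * d).choose d * (m + d).choose d * (m + d + m).choose m : ℕ) : ℤ)) * h3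
  rw [sum_congr rfl h1, ← mul_sum, poly_id n (-16), mul_sum]
  apply sum_congr rfl
  intro j hj
  rw [mem_range] at hj
  have h3 : 3 * j ≤ n := by omega
  unfold WW
  rw [if_pos h3]
  obtain ⟨e, rfl⟩ := Nat.exists_eq_add_of_le h3
  rw [show 3 * j + e - 3 * j = e by omega]
  have h4 : (-16 : ℤ) ^ j = (-1) ^ j * 16 ^ j := by
    rw [← mul_pow]; norm_num
  have h5 : (1 + (-16) : ℤ) ^ e = (-1) ^ e * 15 ^ e := by
    rw [← mul_pow]; norm_num
  rw [h4, h5]
  have h6 : (-1 : ℤ) ^ (3 * j + e) * ((-1) ^ j * (-1) ^ e) = 1 := by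
    rw [← pow_add, ← pow_add, show 3 * j + e + (j + e) = 2 * (2 * j + e) by ring, pow_mul]
    norm_num
  linear_combination ((((2 * (3 * j + e - j)).choose (3 * j + e - j) * (3 * j + e - j).choose j *
    (3 * j + e - 2 * j).choose j : ℕ) : ℤ) * (16 ^ j * 15 ^ e)) * h6

end Pool.Agent.H97.Bin
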