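import Pool.Agent.H97.Bin.Base

namespace Pool.Agent.H97.Bin

open Finset

/-- Reduction modulo `p`. -/
noncomputable def wolRed (p : ℕ) : ZMod (p ^ 3) →+* ZMod p :=
  ZMod.castHom (dvd_pow_self p (by norm_num)) (ZMod p)

theorem wol_red_zero (p : ℕ) (hp : p.Prime) (x : ZMod (p ^ 3)) (hx : wolRed p x = 0) :
    ∃ y : ZMod (p ^ 3), x = (p : ZMod (p ^ 3)) * y := by
  have : NeZero (p ^ 3) := ⟨(pow_pos hp.pos 3).ne'⟩
  obtain ⟨n, rfl⟩ : ∃ n : ℕ, x = (n : ZMod (p ^ 3)) := ⟨x.val, (ZMod.natCast_zmod_val x).symm⟩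
  rw [map_natCast, ZMod.natCast_eq_zero_iff] at hx
  obtain ⟨k, rfl⟩ := hx
  exact ⟨k, by push_cast; ring⟩

theorem wol_P2_zero (p : ℕ) (hp : p.Prime) (x : ZMod (p ^ 3)) (hx : wolRed p x = 0) :
    (p : ZMod (p ^ 3)) ^ 2 * x = 0 := by
  obtain ⟨y, rfl⟩ := wol_red_zero p hp x hx
  linear_combination y * P3 p

theorem wol_ndvd (p : ℕ) (l : ℕ) (hl : l < p - 1) : ¬ (p : ℤ) ∣ ((l : ℤ) + 1) := by
  intro h
  have := Int.le_of_dvd (by omega) h
  omega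

theorem wol_mul_inv (p : ℕ) (hp : p.Prime) (l : ℕ) (hl : l < p - 1) :
    ((l : ZMod (p ^ 3)) + 1) * ((l : ZMod (p ^ 3)) + 1)⁻¹ = 1 := by
  have h := mul_inv_int p hp ((l : ℤ) + 1) (wol_ndvd p l hl)
  push_cast at h
  exact h

theorem wol_red_inv (p : ℕ) (hp : p.Prime) (l : ℕ) (hl : l < p - 1) :
    wolRed p (((l : ZMod (p ^ 3)) + 1)⁻¹) = ((l : ZMod p) + 1)⁻¹ := by
  have : Fact p.Prime := ⟨hp⟩
  have h := congrArg (wolRed p) (wol_mul_inv p hp l hl)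
  rw [map_mul, map_one, map_add, map_one, map_natCast] at h
  exact eq_inv_of_mul_eq_one_right h

/-- `∑ l^{-2}` over the first half vanishes in `ZMod p`. -/
theorem wol_sum_field (p : ℕ) (hp : p.Prime) (h7 : 7 ≤ p) :
    ∑ l ∈ range ((p - 1) / 2), (((l : ZMod p) + 1)⁻¹) ^ 2 = 0 := by
  have : Fact p.Prime := ⟨hp⟩
  have hodd : p % 2 = 1 := by
    rcases hp.eq_two_or_odd with h | h
    · omega
    · exact h
  obtain ⟨N, hN⟩ : ∃ N, N = (p - 1) / 2 := ⟨_, rfl⟩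
  have hpN : p = 2 * N + 1 := by omega
  rw [← hN]
  have h1 : ∑ x : ZMod p, (x⁻¹) ^ 2 = 0 := by
    have h2 : ∑ x : ZMod p, (x⁻¹) ^ 2 = ∑ x : ZMod p, x ^ 2 :=
      Equiv.sum_comp (Equiv.inv (ZMod p)) (fun x => x ^ 2)
    rw [h2]
    apply FiniteField.sum_pow_lt_card_sub_one
    rw [ZMod.card]
    omega
  have h2 : ∑ x : ZMod p, (x⁻¹) ^ 2 = ∑ a ∈ range p, (((a : ℕ) : ZMod p)⁻¹) ^ 2 := by
    symm
    refine Finset.sum_bij (fun a _ => (a : ZMod p)) (fun a _ => Finset.mem_univ _) ?_ ?_ ?_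
    · intro a ha b hb hab
      have := (ZMod.natCast_eq_natCast_iff' a b p).1 hab
      rwa [Nat.mod_eq_of_lt (Finset.mem_range.1 ha), Nat.mod_eq_of_lt (Finset.mem_range.1 hb)]
        at this
    · intro x _
      exact ⟨x.val, Finset.mem_range.2 (ZMod.val_lt x), ZMod.natCast_zmod_val x⟩
    · intro a _
      rfl
  have h3 : ∑ a ∈ range p, (((a : ℕ) : ZMod p)⁻¹) ^ 2
      = ∑ a ∈ range (2 * N), (((a : ZMod p) + 1)⁻¹) ^ 2 := by
    have e : range p = range (2 * N + 1) := by rw [← hpN]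
    rw [e, Finset.sum_range_succ']
    simp
  have h4 : ∑ a ∈ range (2 * N), (((a : ZMod p) + 1)⁻¹) ^ 2
      = 2 * ∑ l ∈ range N, (((l : ZMod p) + 1)⁻¹) ^ 2 := by
    rw [two_mul N, Finset.sum_range_add, two_mul]
    congr 1
    rw [← Finset.sum_range_reflect]
    refine Finset.sum_congr rfl fun j hj => ?_
    have hj' := Finset.mem_range.1 hj
    have e : (((N + (N - 1 - j) : ℕ) : ZMod p) + 1) = -((j : ZMod p) + 1) := by
      have e1 : ((N + (N - 1 - j) + 1 + (j + 1) : ℕ) : ZMod p) = 0 := by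
        have : N + (N - 1 - j) + 1 + (j + 1) = p := by omega
        rw [this, ZMod.natCast_self]
      push_cast at e1 ⊢
      linear_combination e1
    rw [e, inv_neg, neg_sq]
  rw [h2, h3, h4] at h1
  have h2ne : (2 : ZMod p) ≠ 0 := by
    intro h
    have h5 : ((2 : ℕ) : ZMod p) = 0 := by exact_mod_cast h
    rw [ZMod.natCast_eq_zero_iff] at h5
    have := Nat.le_of_dvd (by norm_num) h5
    omega
  exact (mul_eq_zero.1 h1).resolve_left h2ne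

/-- `∑ 1 / l ^ 2` over `1 ≤ l ≤ (p - 1) / 2` vanishes modulo `p`. -/
theorem P2_sum (p : ℕ) (hp : p.Prime) (h7 : 7 ≤ p) :
    (p : ZMod (p ^ 3)) ^ 2 *
      ∑ l ∈ range ((p - 1) / 2), (((l : ZMod (p ^ 3)) + 1)⁻¹) ^ 2 = 0 := by
  apply wol_P2_zero p hp
  rw [map_sum, ← wol_sum_field p hp h7]
  refine Finset.sum_congr rfl fun l hl => ?_
  have hl' := Finset.mem_range.1 hl
  rw [map_pow, wol_red_inv p hp l (by omega)]

/-- A product of factors `1 - P^2 t`. -/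
theorem wol_prod_one (p : ℕ) (t : ℕ → ZMod (p ^ 3)) (n : ℕ) :
    ∏ l ∈ range n, (1 - (p : ZMod (p ^ 3)) ^ 2 * t l) =
      1 - (p : ZMod (p ^ 3)) ^ 2 * ∑ l ∈ range n, t l := by
  induction n with
  | zero => simp
  | succ n ih =>
    rw [Finset.prod_range_succ, ih, Finset.sum_range_succ]
    linear_combination ((p : ZMod (p ^ 3)) * (∑ l ∈ range n, t l) * t n) * P3 p

theorem wol_four (p : ℕ) (hp : p.Prime) (h7 : 7 ≤ p) :
    (4 : ZMod (p ^ 3)) * (4 : ZMod (p ^ 3))⁻¹ = 1 := by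
  have h := mul_inv_int p hp 4 (by
    intro h
    have := Int.le_of_dvd (by norm_num) h
    omega)
  push_cast at h
  exact h

/-- Products of the factors `1 - P^2 c y_l^2`. -/
theorem wol_prod_y (p : ℕ) (hp : p.Prime) (h7 : 7 ≤ p) (c : ZMod (p ^ 3)) :
    ∏ l ∈ range ((p - 1) / 2),
      (1 - (p : ZMod (p ^ 3)) ^ 2 * (c * (((l : ZMod (p ^ 3)) + 1)⁻¹) ^ 2)) = 1 := by
  rw [wol_prod_one, ← Finset.mul_sum]
  linear_combination (-c) * P2_sum p hp h7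

theorem prod_odd (p : ℕ) (hp : p.Prime) (h7 : 7 ≤ p) (c : ZMod (p ^ 3)) :
    ∏ l ∈ range ((p - 1) / 2), ((c * (p : ZMod (p ^ 3))) ^ 2 - (2 * ((l : ZMod (p ^ 3)) + 1)) ^ 2) = XX p := by
  have h1 : ∀ l ∈ range ((p - 1) / 2),
      ((c * (p : ZMod (p ^ 3))) ^ 2 - (2 * ((l : ZMod (p ^ 3)) + 1)) ^ 2) =
      ((-4) * (((l : ZMod (p ^ 3)) + 1) ^ 2)) *
        (1 - (p : ZMod (p ^ 3)) ^ 2 * ((c ^ 2 * (4 : ZMod (p ^ 3))⁻¹) *
          (((l : ZMod (p ^ 3)) + 1)⁻¹) ^ 2)) := by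
    intro l hl
    have hl' := Finset.mem_range.1 hl
    have hy := wol_mul_inv p hp l (by omega)
    obtain ⟨y, hyd⟩ : ∃ y : ZMod (p ^ 3), y = ((l : ZMod (p ^ 3)) + 1)⁻¹ := ⟨_, rfl⟩
    rw [← hyd] at hy ⊢
    have h4 := wol_four p hp h7
    obtain ⟨q, hqd⟩ : ∃ q : ZMod (p ^ 3), q = (4 : ZMod (p ^ 3))⁻¹ := ⟨_, rfl⟩
    rw [← hqd] at h4 ⊢
    have e2 : ((l : ZMod (p ^ 3)) + 1) ^ 2 * y ^ 2 = 1 := by
      linear_combination (((l : ZMod (p ^ 3)) + 1) * y + 1) * hy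
    linear_combination (-(c ^ 2 * (p : ZMod (p ^ 3)) ^ 2)) * h4
      - (4 * q * c ^ 2 * (p : ZMod (p ^ 3)) ^ 2) * e2
  rw [Finset.prod_congr rfl h1, Finset.prod_mul_distrib, wol_prod_y p hp h7, mul_one,
    Finset.prod_mul_distrib, Finset.prod_const, Finset.card_range, Finset.prod_pow]
  unfold XX
  congr 2
  rw [← Finset.prod_range_add_one_eq_factorial]
  push_cast
  rfl

/-- Pairing `m ↔ p - m`. -/
theorem wol_pair (p : ℕ) (hp : p.Prime) (h7 : 7 ≤ p) (b : ZMod (p ^ 3)) :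
    ∏ m ∈ range (p - 1), (2 * ((m : ZMod (p ^ 3)) + 1) + b * (p : ZMod (p ^ 3))) =
      ∏ m ∈ range ((p - 1) / 2), ((-4) * (((m : ZMod (p ^ 3)) + 1) ^ 2) +
        4 * ((m : ZMod (p ^ 3)) + 1) * (p : ZMod (p ^ 3)) +
        b * (b + 2) * (p : ZMod (p ^ 3)) ^ 2) := by
  have hodd : p % 2 = 1 := by
    rcases hp.eq_two_or_odd with h | h
    · omega
    · exact h
  obtain ⟨N, hN⟩ : ∃ N, N = (p - 1) / 2 := ⟨_, rfl⟩
  have hpN : p - 1 = N + N := by omega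
  rw [← hN, hpN, Finset.prod_range_add]
  rw [← Finset.prod_range_reflect (fun x => (2 * (((N + x : ℕ) : ZMod (p ^ 3)) + 1)
    + b * (p : ZMod (p ^ 3)))), ← Finset.prod_mul_distrib]
  refine Finset.prod_congr rfl fun j hj => ?_
  have hj' := Finset.mem_range.1 hj
  have e : ((N + (N - 1 - j) : ℕ) : ZMod (p ^ 3)) + 1
      = (p : ZMod (p ^ 3)) - ((j : ZMod (p ^ 3)) + 1) := by
    have e1 : ((N + (N - 1 - j) + 1 + (j + 1) : ℕ) : ZMod (p ^ 3)) = (p : ZMod (p ^ 3)) := by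
      have : N + (N - 1 - j) + 1 + (j + 1) = p := by omega
      rw [this]
    push_cast at e1 ⊢
    linear_combination e1
  rw [e]
  ring

theorem wol_pair_eq (p : ℕ) (hp : p.Prime) (h7 : 7 ≤ p) (b : ZMod (p ^ 3)) :
    ∏ m ∈ range (p - 1), (2 * ((m : ZMod (p ^ 3)) + 1) + b * (p : ZMod (p ^ 3))) =
      ∏ m ∈ range ((p - 1) / 2), ((-4) * (((m : ZMod (p ^ 3)) + 1) ^ 2) +
        4 * ((m : ZMod (p ^ 3)) + 1) * (p : ZMod (p ^ 3))) := by
  rw [wol_pair p hp h7]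
  have h1 : ∀ l ∈ range ((p - 1) / 2),
      ((-4) * (((l : ZMod (p ^ 3)) + 1) ^ 2) +
        4 * ((l : ZMod (p ^ 3)) + 1) * (p : ZMod (p ^ 3)) +
        b * (b + 2) * (p : ZMod (p ^ 3)) ^ 2) =
      ((-4) * (((l : ZMod (p ^ 3)) + 1) ^ 2) +
        4 * ((l : ZMod (p ^ 3)) + 1) * (p : ZMod (p ^ 3))) *
        (1 - (p : ZMod (p ^ 3)) ^ 2 * ((b * (b + 2) * (4 : ZMod (p ^ 3))⁻¹) *
          (((l : ZMod (p ^ 3)) + 1)⁻¹) ^ 2)) := by
    intro l hl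
    have hl' := Finset.mem_range.1 hl
    have hy := wol_mul_inv p hp l (by omega)
    obtain ⟨y, hyd⟩ : ∃ y : ZMod (p ^ 3), y = ((l : ZMod (p ^ 3)) + 1)⁻¹ := ⟨_, rfl⟩
    rw [← hyd] at hy ⊢
    have h4 := wol_four p hp h7
    obtain ⟨q, hqd⟩ : ∃ q : ZMod (p ^ 3), q = (4 : ZMod (p ^ 3))⁻¹ := ⟨_, rfl⟩
    rw [← hqd] at h4 ⊢
    have e2 : ((l : ZMod (p ^ 3)) + 1) ^ 2 * y ^ 2 = 1 := by
      linear_combination (((l : ZMod (p ^ 3)) + 1) * y + 1) * hy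
    have h3 := P3 p
    obtain ⟨P, hPd⟩ : ∃ P : ZMod (p ^ 3), P = (p : ZMod (p ^ 3)) := ⟨_, rfl⟩
    rw [← hPd] at h3 ⊢
    linear_combination (-(b * (b + 2) * P ^ 2)) * h4
      - (4 * q * (b * (b + 2)) * P ^ 2) * e2
      + (4 * q * (b * (b + 2)) * ((l : ZMod (p ^ 3)) + 1) * y ^ 2) * h3
  rw [Finset.prod_congr rfl h1, Finset.prod_mul_distrib, wol_prod_y p hp h7, mul_one]

theorem prod_even (p : ℕ) (hp : p.Prime) (h7 : 7 ≤ p) (b : ZMod (p ^ 3)) :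
    ∏ m ∈ range (p - 1), (2 * ((m : ZMod (p ^ 3)) + 1) + b * (p : ZMod (p ^ 3))) = YY p := by
  rw [wol_pair_eq p hp h7 b, ← wol_pair_eq p hp h7 0]
  simp only [zero_mul, add_zero]
  rw [Finset.prod_mul_distrib, Finset.prod_const, Finset.card_range]
  unfold YY
  congr 1
  rw [← Finset.prod_range_add_one_eq_factorial]
  push_cast
  rfl

theorem wol_YY_unit (p : ℕ) (hp : p.Prime) (h7 : 7 ≤ p) : IsUnit (YY p) := by
  unfold YY
  have h1 := unit_int p hp 2 (by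
    intro h
    have := Int.le_of_dvd (by norm_num) h
    omega)
  have h2 := unit_int p hp ((p - 1).factorial : ℤ) (by
    intro h
    have h3 : p ∣ (p - 1).factorial := by exact_mod_cast h
    have := (hp.dvd_factorial).1 h3
    omega)
  push_cast at h1 h2
  exact (h1.pow _).mul h2

theorem wol_unit (p : ℕ) (hp : p.Prime) (h7 : 7 ≤ p) :
    IsUnit ((4 : ZMod (p ^ 3)) ^ (p - 1) * YY p ^ 3) :=
  ((IsUnit.of_mul_eq_one _ (wol_four p hp h7)).pow _).mul ((wol_YY_unit p hp h7).pow 3)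

theorem vv_unit (p : ℕ) (hp : p.Prime) (h7 : 7 ≤ p) :
    vv p * ((4 : ZMod (p ^ 3)) ^ (p - 1) * YY p ^ 3) = XX p ^ 3 := by
  unfold vv
  rw [mul_assoc, ZMod.inv_mul_of_unit _ (wol_unit p hp h7), mul_one]

theorem wol_red_eq (p : ℕ) (hp : p.Prime) (h7 : 7 ≤ p) : wolRed p (YY p) = wolRed p (XX p) := by
  rw [← prod_even p hp h7 0, ← prod_odd p hp h7 0, wol_pair_eq p hp h7 0, map_prod, map_prod]
  refine Finset.prod_congr rfl fun m _ => ?_
  have hP : wolRed p (p : ZMod (p ^ 3)) = 0 := by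
    rw [map_natCast, ZMod.natCast_self]
  rw [map_add, map_mul, map_mul, hP, map_sub]
  simp only [zero_mul, mul_zero, add_zero, ne_eq, OfNat.ofNat_ne_zero, not_false_eq_true,
    zero_pow, map_zero, zero_sub]
  rw [← map_mul, ← map_neg]
  congr 1
  ring

theorem vv_eq (p : ℕ) (hp : p.Prime) (h7 : 7 ≤ p) :
    ∃ w : ZMod (p ^ 3), vv p = 1 + (p : ZMod (p ^ 3)) * w := by
  have : Fact p.Prime := ⟨hp⟩
  have h1 := congrArg (wolRed p) (vv_unit p hp h7)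
  have h4 : (wolRed p 4) ^ (p - 1) = 1 := by
    apply ZMod.pow_card_sub_one_eq_one
    intro h
    have h5 := (IsUnit.of_mul_eq_one _ (wol_four p hp h7)).map (wolRed p)
    rw [h] at h5
    exact not_isUnit_zero h5
  rw [map_mul, map_mul, map_pow, map_pow, map_pow, h4, one_mul, wol_red_eq p hp h7] at h1
  have hX : wolRed p (XX p) ≠ 0 := by
    intro h
    have h5 := (wol_YY_unit p hp h7).map (wolRed p)
    rw [wol_red_eq p hp h7, h] at h5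
    exact not_isUnit_zero h5
  have h6 : wolRed p (vv p) = 1 := by
    have h7 : wolRed p (vv p) * wolRed p (XX p) ^ 3 = 1 * wolRed p (XX p) ^ 3 := by
      rw [h1, one_mul]
    exact mul_right_cancel₀ (pow_ne_zero 3 hX) h7
  obtain ⟨w, hw⟩ := wol_red_zero p hp (vv p - 1) (by rw [map_sub, h6, map_one, sub_self])
  exact ⟨w, by rw [← hw]; ring⟩

end Pool.Agent.H97.Bin
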